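import Mathlib
import Pool.Graph.R_seed8.H299.GenHyp1

/-!
Consequences of the shadowing property: solutions of `y (t + 1) - T (y t) = δ_{t,0} x` which are
small away from `t = 0`; and the converse direction.
-/

set_option autoImplicit false

open Filter Topology Set

namespace Pool.Agent.KS6_15.HS

open Pool.Agent.Results.MP_0764b2_an.ShadowingNotGenHyp

section Sh

variable {𝕜 : Type} [RCLike 𝕜] {Y : Type} [NormedAddCommGroup Y] [NormedSpace 𝕜 Y]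

lemma shad_use {T : Y ≃L[𝕜] Y} (h : ShadowingAux T) :
    ∃ K : ℝ, 0 < K ∧ ∀ (z : ℤ → Y) (B : ℝ), (∀ n, ‖z n‖ ≤ B) →
      ∃ y : ℤ → Y, (∀ n, y (n + 1) - T (y n) = z n) ∧ ∀ n, ‖y n‖ ≤ K * B := by
  obtain ⟨K, hK, h⟩ := h
  refine ⟨K, hK, fun z B hz => ?_⟩
  have hb : Bornology.IsBounded (range z) := by
    rw [isBounded_iff_forall_norm_le]
    refine ⟨B, ?_⟩
    rintro _ ⟨n, rfl⟩
    exact hz n
  obtain ⟨y, hy, h1, h2⟩ := h z hb
  refine ⟨y, h1, fun n => ?_⟩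
  have hbdd : BddAbove (range fun n => ‖y n‖) := by
    obtain ⟨R, hR⟩ := hy.exists_norm_le
    refine ⟨R, ?_⟩
    rintro _ ⟨n, rfl⟩
    exact hR _ ⟨n, rfl⟩
  have h3 : (⨆ n, ‖z n‖) ≤ B := ciSup_le hz
  calc ‖y n‖ ≤ ⨆ n, ‖y n‖ := le_ciSup hbdd n
    _ ≤ K * ⨆ n, ‖z n‖ := h2
    _ ≤ K * B := by gcongr

/-- the cut-off function -/
noncomputable def cut (N : ℕ) (t : ℤ) : ℝ := max 0 (1 - |(t : ℝ)| / N)

lemma cut_nonneg (N : ℕ) (t : ℤ) : 0 ≤ cut N t := le_max_left _ _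

lemma cut_le_one (N : ℕ) (t : ℤ) : cut N t ≤ 1 := by
  refine max_le zero_le_one ?_
  have : 0 ≤ |(t : ℝ)| / N := by positivity
  linarith

lemma cut_far {N : ℕ} (hN : 1 ≤ N) {t : ℤ} (ht : (N : ℤ) ≤ |t|) : cut N t = 0 := by
  refine max_eq_left ?_
  have h1 : (N : ℝ) ≤ |(t : ℝ)| := by exact_mod_cast ht
  have h2 : (0 : ℝ) < N := by exact_mod_cast hN
  rw [sub_nonpos, le_div_iff₀ h2]
  linarith

lemma cut_zero (N : ℕ) : cut N 0 = 1 := by
  simp [cut]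

lemma cut_diff {N : ℕ} (hN : 1 ≤ N) (t : ℤ) : |cut N (t + 1) - cut N t| ≤ 1 / N := by
  have h2 : (0 : ℝ) < N := by exact_mod_cast hN
  unfold cut
  refine (abs_max_sub_max_le_max _ _ _ _).trans ?_
  rw [sub_self, abs_zero]
  refine max_le (by positivity) ?_
  have h3 : 1 - |((t + 1 : ℤ) : ℝ)| / N - (1 - |(t : ℝ)| / N) =
      (|(t : ℝ)| - |((t + 1 : ℤ) : ℝ)|) / N := by ring
  rw [h3, abs_div, abs_of_pos h2]
  gcongr
  have h4 := abs_abs_sub_abs_le_abs_sub (t : ℝ) ((t + 1 : ℤ) : ℝ)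
  refine h4.trans ?_
  push_cast
  rw [show (t : ℝ) - (t + 1) = -1 by ring, abs_neg, abs_one]

/-- **Localized solutions.** -/
theorem localized {T : Y ≃L[𝕜] Y} (h : ShadowingAux T) :
    ∃ C : ℝ, 0 ≤ C ∧ ∀ (N : ℕ), 1 ≤ N → ∀ x : Y, ∃ y : ℤ → Y,
      (∀ t, y (t + 1) - T (y t) = if t = 0 then x else 0) ∧ (∀ t, ‖y t‖ ≤ C * ‖x‖) ∧
      ∀ t : ℤ, (N : ℤ) ≤ |t| → ‖y t‖ ≤ C / N * ‖x‖ := by
  obtain ⟨K, hK, hs⟩ := shad_use h
  set τ : ℝ := ‖(T : Y →L[𝕜] Y)‖ with hτ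
  have hτ0 : 0 ≤ τ := norm_nonneg _
  refine ⟨K + K * (1 + τ * K), by positivity, fun N hN x => ?_⟩
  have hN0 : (0 : ℝ) < N := by exact_mod_cast hN
  have hN1 : (1 : ℝ) ≤ N := by exact_mod_cast hN
  obtain ⟨y, hy, hyn⟩ := hs (fun t => if t = 0 then x else 0) ‖x‖ (fun t => by
    split_ifs
    · exact le_rfl
    · rw [norm_zero]; exact norm_nonneg _)
  set r : ℤ → Y := fun t => ((cut N (t + 1) : ℝ) : 𝕜) • y (t + 1) - T (((cut N t : ℝ) : 𝕜) • y t) -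
    (if t = 0 then x else 0) with hr
  have hrn : ∀ t, ‖r t‖ ≤ (1 + τ * K) / N * ‖x‖ := by
    intro t
    have e1 : r t = ((cut N (t + 1) - 1 : ℝ) : 𝕜) • (if t = 0 then x else 0) +
        ((cut N (t + 1) - cut N t : ℝ) : 𝕜) • T (y t) := by
      have h1 : y (t + 1) = (if t = 0 then x else 0) + T (y t) := by
        rw [← hy t]; abel
      simp only [hr]
      rw [h1, map_smul]
      push_cast
      rw [smul_add, sub_smul, sub_smul, one_smul]
      abel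
    rw [e1]
    have h2 : ‖((cut N (t + 1) - 1 : ℝ) : 𝕜) • (if t = 0 then x else (0 : Y))‖ ≤ 1 / N * ‖x‖ := by
      by_cases ht : t = 0
      · rw [if_pos ht, norm_smul, RCLike.norm_ofReal]
        have h3 := cut_diff hN t
        rw [ht] at h3 ⊢
        rw [cut_zero] at h3
        gcongr
      · rw [if_neg ht, smul_zero, norm_zero]; positivity
    have h3 : ‖((cut N (t + 1) - cut N t : ℝ) : 𝕜) • T (y t)‖ ≤ 1 / N * (τ * (K * ‖x‖)) := by
      rw [norm_smul, RCLike.norm_ofReal]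
      refine mul_le_mul (cut_diff hN t) ?_ (norm_nonneg _) (by positivity)
      refine ((T : Y →L[𝕜] Y).le_opNorm (y t)).trans ?_
      exact mul_le_mul_of_nonneg_left (hyn t) hτ0
    calc _ ≤ 1 / N * ‖x‖ + 1 / N * (τ * (K * ‖x‖)) := (norm_add_le _ _).trans (add_le_add h2 h3)
      _ = (1 + τ * K) / N * ‖x‖ := by ring
  obtain ⟨v, hv, hvn⟩ := hs (fun t => -r t) _ (fun t => by rw [norm_neg]; exact hrn t)
  refine ⟨fun t => ((cut N t : ℝ) : 𝕜) • y t + v t, fun t => ?_, fun t => ?_, fun t ht => ?_⟩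
  · show ((cut N (t + 1) : ℝ) : 𝕜) • y (t + 1) + v (t + 1) -
      T (((cut N t : ℝ) : 𝕜) • y t + v t) = _
    have h1 : v (t + 1) = T (v t) - r t := by
      have := hv t
      rw [sub_eq_iff_eq_add] at this
      rw [this]; abel
    rw [h1, map_add]
    simp only [hr]
    abel
  · have h1 : ‖((cut N t : ℝ) : 𝕜) • y t‖ ≤ K * ‖x‖ := by
      rw [norm_smul, RCLike.norm_ofReal, abs_of_nonneg (cut_nonneg _ _)]
      have := hyn t
      have h2 := cut_le_one N t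
      nlinarith [norm_nonneg (y t), cut_nonneg N t]
    have h2 : ‖v t‖ ≤ K * (1 + τ * K) * ‖x‖ := by
      refine (hvn t).trans ?_
      have h3 : (1 + τ * K) / N ≤ 1 + τ * K := div_le_self (by positivity) hN1
      calc K * ((1 + τ * K) / N * ‖x‖) ≤ K * ((1 + τ * K) * ‖x‖) := by gcongr
        _ = _ := by ring
    calc _ ≤ K * ‖x‖ + K * (1 + τ * K) * ‖x‖ := (norm_add_le _ _).trans (add_le_add h1 h2)
      _ = _ := by ring
  · show ‖((cut N t : ℝ) : 𝕜) • y t + v t‖ ≤ _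
    rw [cut_far hN ht, RCLike.ofReal_zero, zero_smul, zero_add]
    refine (hvn t).trans ?_
    rw [← mul_assoc, ← mul_div_assoc]
    have : K * (1 + τ * K) ≤ K + K * (1 + τ * K) := by linarith
    gcongr

end Sh

end Pool.Agent.KS6_15.HS
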