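import Mathlib
import Pool.Agent.KS6_15.HS.Shad

/-!
The products of the generating operators of a shift operator, and block coordinates.
-/

set_option autoImplicit false

open Filter Topology Set
open scoped ENNReal

noncomputable section

namespace Pool.Agent.KS6_15.HS

open Pool.Agent.Results.MP_0764b2_an.ShadowingNotGenHyp

section Fi

variable {𝕜 : Type} [RCLike 𝕜] {X : Type} [NormedAddCommGroup X] [NormedSpace 𝕜 X]

/-- the product `S (k - j + 1) ⋯ S k` -/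
def Ph (S : ℤ → X ≃L[𝕜] X) (k : ℤ) : ℕ → (X ≃L[𝕜] X)
  | 0 => ContinuousLinearEquiv.refl 𝕜 X
  | j + 1 => (Ph S k j).trans (S (k - j))

variable (S : ℤ → X ≃L[𝕜] X)

lemma Ph_zero (k : ℤ) (x : X) : Ph S k 0 x = x := rfl

lemma Ph_succ (k : ℤ) (j : ℕ) (x : X) : Ph S k (j + 1) x = S (k - j) (Ph S k j x) := rfl

lemma Ph_symm_zero (k : ℤ) (x : X) : (Ph S k 0).symm x = x := rfl

lemma Ph_symm_succ (k : ℤ) (j : ℕ) (x : X) :
    (Ph S k (j + 1)).symm x = (Ph S k j).symm ((S (k - j)).symm x) := rfl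

lemma Ph_add (k : ℤ) (a b : ℕ) (x : X) : Ph S k (a + b) x = Ph S (k - b) a (Ph S k b x) := by
  induction a with
  | zero => rw [Nat.zero_add, Ph_zero]
  | succ a ih =>
    rw [Nat.succ_add, Ph_succ, Ph_succ, ih]
    congr 2
    push_cast
    ring

lemma Ph_one (k : ℤ) (x : X) : Ph S k 1 x = S k x := by
  have := Ph_succ S k 0 x
  rw [Nat.cast_zero, sub_zero, Ph_zero] at this
  exact this

lemma Ph_norm {C : ℝ} (hC : 1 ≤ C) (hS : ∀ n x, ‖S n x‖ ≤ C * ‖x‖) (k : ℤ) (j : ℕ) (x : X) :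
    ‖Ph S k j x‖ ≤ C ^ j * ‖x‖ := by
  induction j with
  | zero => rw [Ph_zero, pow_zero, one_mul]
  | succ j ih =>
    rw [Ph_succ]
    calc ‖S (k - j) (Ph S k j x)‖ ≤ C * ‖Ph S k j x‖ := hS _ _
      _ ≤ C * (C ^ j * ‖x‖) := by gcongr
      _ = C ^ (j + 1) * ‖x‖ := by ring

lemma Ph_symm_norm {C : ℝ} (hC : 1 ≤ C) (hS : ∀ n x, ‖(S n).symm x‖ ≤ C * ‖x‖) (k : ℤ) (j : ℕ) :
    ∀ x : X, ‖(Ph S k j).symm x‖ ≤ C ^ j * ‖x‖ := by
  induction j with
  | zero => intro x; rw [Ph_symm_zero, pow_zero, one_mul]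
  | succ j ih =>
    intro x
    rw [Ph_symm_succ]
    calc ‖(Ph S k j).symm ((S (k - j)).symm x)‖ ≤ C ^ j * ‖(S (k - j)).symm x‖ := ih _
      _ ≤ C ^ j * (C * ‖x‖) := by gcongr; exact hS _ _
      _ = C ^ (j + 1) * ‖x‖ := by ring

variable {S} {p : ℝ≥0∞} [hp : Fact (1 ≤ p)]

lemma p_ne_zero : p ≠ 0 := by
  rintro rfl
  exact absurd hp.out (by simp)

/-- **Decomposition in the fibres.** -/
theorem fibreDecomp {σ : lp (fun _ : ℤ => X) p ≃L[𝕜] lp (fun _ : ℤ => X) p}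
    (hσ : ∀ (x : lp (fun _ : ℤ => X) p) (k : ℤ), σ x k = S (k + 1) (x (k + 1)))
    (h : ShadowingAux σ) :
    ∃ C : ℝ, 0 ≤ C ∧ ∀ (N : ℕ), 1 ≤ N → ∀ (k : ℤ) (x : X), ∃ u v : X, u + v = x ∧
      ‖u‖ ≤ C * ‖x‖ ∧ ‖v‖ ≤ C * ‖x‖ ∧ ‖Ph S k (N + 1) u‖ ≤ C / N * ‖x‖ ∧
      ‖(Ph S (k + (N + 1 : ℕ)) (N + 1)).symm v‖ ≤ C / N * ‖x‖ := by
  obtain ⟨C, hC, hloc⟩ := localized h
  refine ⟨C + 1, by linarith, fun N hN k x => ?_⟩
  have hN0 : (0 : ℝ) < N := by exact_mod_cast hN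
  obtain ⟨y, hy, hy1, hy2⟩ := hloc N hN (lp.single p k x)
  have hxn : ‖(lp.single p k x : lp (fun _ : ℤ => X) p)‖ = ‖x‖ :=
    lp.norm_single (zero_lt_one.trans_le hp.out) _ _
  rw [hxn] at hy1 hy2
  set a : ℤ → X := fun t => y t (k + 1 - t) with ha
  have hrel : ∀ t : ℤ, a (t + 1) - S (k + 1 - t) (a t) = if t = 0 then x else 0 := by
    intro t
    have h1 := congrArg (fun f : lp (fun _ : ℤ => X) p => f (k - t)) (hy t)
    simp only [lp.coeFn_sub, Pi.sub_apply] at h1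
    rw [hσ, show k - t + 1 = k + 1 - t by ring] at h1
    have h2 : a (t + 1) = y (t + 1) (k - t) := by
      simp only [ha]
      rw [show k + 1 - (t + 1) = k - t by ring]
    rw [h2]
    refine h1.trans ?_
    by_cases ht : t = 0
    · rw [if_pos ht, if_pos ht, ht, sub_zero, lp.single_apply_self]
    · rw [if_neg ht, if_neg ht]; rfl
  have han : ∀ t, ‖a t‖ ≤ ‖y t‖ := fun t => lp.norm_apply_le_norm p_ne_zero _ _
  have hf : ∀ j : ℕ, a (1 + j) = Ph S k j (a 1) := by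
    intro j
    induction j with
    | zero => rw [Nat.cast_zero, add_zero, Ph_zero]
    | succ j ih =>
      have h1 := hrel (1 + j)
      rw [if_neg (by omega), sub_eq_zero] at h1
      rw [Ph_succ, ← ih]
      have h2 : (1 : ℤ) + ((j + 1 : ℕ) : ℤ) = 1 + j + 1 := by push_cast; ring
      have h3 : k - (j : ℤ) = k + 1 - (1 + j) := by ring
      rw [h2, h3]
      exact h1
  have hb : ∀ j : ℕ, S (k + 1) (a 0) = Ph S (k + 1 + j) (j + 1) (a (-j)) := by
    intro j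
    induction j with
    | zero =>
      rw [Nat.cast_zero, add_zero, neg_zero, zero_add, Ph_one]
    | succ j ih =>
      rw [ih]
      have h1 := hrel (-((j + 1 : ℕ) : ℤ))
      rw [if_neg (by omega), sub_eq_zero] at h1
      have h2 : -((j + 1 : ℕ) : ℤ) + 1 = -(j : ℤ) := by push_cast; ring
      rw [h2] at h1
      rw [h1, Ph_add S _ (j + 1) 1, Ph_one]
      have h3 : k + 1 + ((j + 1 : ℕ) : ℤ) - ((1 : ℕ) : ℤ) = k + 1 + j := by push_cast; ring
      have h4 : k + 1 - -((j + 1 : ℕ) : ℤ) = k + 1 + ((j + 1 : ℕ) : ℤ) := by ring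
      rw [h3, h4]
  have h0 := hrel 0
  rw [if_pos rfl, sub_zero, zero_add] at h0
  refine ⟨a 1, x - a 1, by abel, ?_, ?_, ?_, ?_⟩
  · have := (han 1).trans (hy1 1)
    nlinarith [norm_nonneg x]
  · have h1 := (han 1).trans (hy1 1)
    have h2 := norm_sub_le x (a 1)
    nlinarith [norm_nonneg x]
  · rw [← hf (N + 1)]
    have h1 := (han (1 + ((N + 1 : ℕ) : ℤ))).trans (hy2 _ (by
      rw [abs_of_nonneg (by positivity)]
      push_cast
      linarith))
    refine h1.trans ?_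
    gcongr
    linarith
  · have h1 : x - a 1 = -(S (k + 1) (a 0)) := by
      rw [← h0]; abel
    have h2 : k + ((N + 1 : ℕ) : ℤ) = k + 1 + N := by push_cast; ring
    rw [h1, hb N, h2, map_neg, ContinuousLinearEquiv.symm_apply_apply, norm_neg]
    have h3 := (han (-(N : ℤ))).trans (hy2 _ (by
      rw [abs_neg, abs_of_nonneg (by positivity)]))
    refine h3.trans ?_
    gcongr
    linarith

end Fi

end Pool.Agent.KS6_15.HS
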