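import Mathlib
import Pool.Agent.KS6_15.HS.Fib

/-!
From an invariant family of projections at the block ends to a generalized hyperbolic splitting of
the shift operator.
-/

set_option autoImplicit false

open Filter Topology Set
open scoped ENNReal

noncomputable section

namespace Pool.Agent.KS6_15.HS

open Pool.Agent.Results.MP_0764b2_an.ShadowingNotGenHyp

section As

variable {𝕜 : Type} [RCLike 𝕜] {X : Type} [NormedAddCommGroup X] [NormedSpace 𝕜 X]
  {p : ℝ≥0∞} [hp : Fact (1 ≤ p)]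

omit [NormedSpace 𝕜 X] in
/-- comparison of norms along a shift -/
lemma norm_le_shift [NormedSpace 𝕜 X] (f g : lp (fun _ : ℤ => X) p) {c : ℝ} (hc : 0 ≤ c) (l : ℤ)
    (h : ∀ k, ‖f k‖ ≤ c * ‖g (k + l)‖) : ‖f‖ ≤ c * ‖g‖ := by
  have h1 : ‖((c : ℝ) : 𝕜) • reidx (Equiv.addRight l) g‖ = c * ‖g‖ := by
    rw [norm_smul, RCLike.norm_ofReal, abs_of_nonneg hc, norm_reidx]
  rw [← h1]
  refine lp.norm_mono p_ne_zero (fun n => ?_)
  rw [lp.coeFn_smul, Pi.smul_apply, norm_smul, RCLike.norm_ofReal, abs_of_nonneg hc, reidx_apply]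
  exact h n

/-- block number of a place -/
def bm (n : ℕ) (k : ℤ) : ℤ := -((-k) / (n : ℤ))

/-- offset of a place -/
def bj (n : ℕ) (k : ℤ) : ℕ := ((-k) % (n : ℤ)).toNat

lemma bj_lt {n : ℕ} (hn : 1 ≤ n) (k : ℤ) : bj n k < n := by
  have h1 : (0 : ℤ) < n := by exact_mod_cast hn
  have h2 := Int.emod_nonneg (-k) h1.ne'
  have h3 := Int.emod_lt_of_pos (-k) h1
  unfold bj
  omega

lemma b_eq {n : ℕ} (hn : 1 ≤ n) (k : ℤ) : (n : ℤ) * bm n k - (bj n k : ℤ) = k := by
  have h1 : (0 : ℤ) < n := by exact_mod_cast hn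
  have h2 := Int.emod_nonneg (-k) h1.ne'
  have h3 := Int.mul_ediv_add_emod (-k) n
  unfold bj bm
  rw [Int.toNat_of_nonneg h2]
  linarith

lemma b_uniq {n : ℕ} {m m' : ℤ} {j j' : ℕ} (hj : j < n) (hj' : j' < n)
    (h : (n : ℤ) * m - j = n * m' - j') : m = m' ∧ j = j' := by
  have h1 : (n : ℤ) * (m - m') = j - j' := by linarith
  have h2 : m - m' = 0 := by
    by_contra hne
    have h3 : 1 ≤ |m - m'| := Int.one_le_abs hne
    have h4 : (n : ℤ) ≤ |(n : ℤ) * (m - m')| := by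
      rw [abs_mul, Nat.abs_cast]
      nlinarith [abs_nonneg (m - m')]
    rw [h1] at h4
    have h5 : |(j : ℤ) - j'| < n := by
      rw [abs_lt]
      constructor <;> omega
    omega
  rw [h2, mul_zero] at h1
  constructor
  · omega
  · omega

variable (S : ℤ → X ≃L[𝕜] X)

/-- block coordinate -/
def bc (n : ℕ) (m : ℤ) (j : ℕ) (x : lp (fun _ : ℤ => X) p) : X :=
  (Ph S (n * m) j).symm (x (n * m - j))

lemma bc_eq (n : ℕ) (m : ℤ) (j : ℕ) (x : lp (fun _ : ℤ => X) p) :
    Ph S (n * m) j (bc S n m j x) = x (n * m - j) := by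
  simp [bc]

/-- the block coordinate as a bounded operator -/
def bcL (n : ℕ) (m : ℤ) (j : ℕ) : lp (fun _ : ℤ => X) p →L[𝕜] X :=
  ((Ph S (n * m) j).symm : X →L[𝕜] X).comp (lp.evalCLM 𝕜 (fun _ : ℤ => X) p (n * m - j))

lemma bcL_apply (n : ℕ) (m : ℤ) (j : ℕ) (x : lp (fun _ : ℤ => X) p) :
    bcL S n m j x = bc S n m j x := rfl

variable {S} {σ : lp (fun _ : ℤ => X) p ≃L[𝕜] lp (fun _ : ℤ => X) p}
  (hσ : ∀ (x : lp (fun _ : ℤ => X) p) (k : ℤ), σ x k = S (k + 1) (x (k + 1)))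

include hσ

lemma bc_succ (n : ℕ) (m : ℤ) (j : ℕ) (x : lp (fun _ : ℤ => X) p) :
    bc S n m (j + 1) (σ x) = bc S n m j x := by
  unfold bc
  rw [hσ, Ph_symm_succ]
  have e1 : (n : ℤ) * m - ((j + 1 : ℕ) : ℤ) + 1 = n * m - j := by push_cast; ring
  rw [e1, ContinuousLinearEquiv.symm_apply_apply]

lemma bc_zero (n' : ℕ) (m : ℤ) (x : lp (fun _ : ℤ => X) p) :
    bc S (n' + 1) m 0 (σ x) =
      Ph S (((n' + 1 : ℕ) : ℤ) * (m + 1)) (n' + 1) (bc S (n' + 1) (m + 1) n' x) := by
  rw [Ph_succ, bc_eq]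
  unfold bc
  rw [Ph_symm_zero, hσ]
  have e1 : ((n' + 1 : ℕ) : ℤ) * m - ((0 : ℕ) : ℤ) + 1 =
      ((n' + 1 : ℕ) : ℤ) * (m + 1) - n' := by push_cast; ring
  rw [e1]

lemma bc_add (n : ℕ) (m : ℤ) (j i : ℕ) (x : lp (fun _ : ℤ => X) p) :
    bc S n m (j + i) (σ^[i] x) = bc S n m j x := by
  induction i with
  | zero => rfl
  | succ i ih =>
    rw [Function.iterate_succ_apply', ← Nat.add_assoc, bc_succ hσ, ih]

lemma bc_iter (n' : ℕ) (m : ℤ) {j : ℕ} (hj : j < n' + 1) (x : lp (fun _ : ℤ => X) p) :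
    bc S (n' + 1) m j (σ^[n' + 1] x) =
      Ph S (((n' + 1 : ℕ) : ℤ) * (m + 1)) (n' + 1) (bc S (n' + 1) (m + 1) j x) := by
  have h1 : n' + 1 = j + (1 + (n' - j)) := by omega
  have h2 : σ^[n' + 1] x = σ^[j] (σ (σ^[n' - j] x)) := by
    nth_rw 1 [h1]
    rw [Function.iterate_add_apply, Function.iterate_add_apply]
    rfl
  rw [h2]
  have h3 := bc_add hσ (n' + 1) m 0 j (σ (σ^[n' - j] x))
  rw [Nat.zero_add] at h3
  rw [h3, bc_zero hσ]
  congr 1
  have h4 := bc_add hσ (n' + 1) (m + 1) j (n' - j) x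
  rw [show j + (n' - j) = n' by omega] at h4
  exact h4

/-- **Assembly.** -/
theorem assemble {C : ℝ} (hC : 1 ≤ C) (hS1 : ∀ n x, ‖S n x‖ ≤ C * ‖x‖)
    (hS2 : ∀ n x, ‖(S n).symm x‖ ≤ C * ‖x‖) (n' : ℕ) (Q : ℤ → X →L[𝕜] X) {κ : ℝ}
    (hQQ : ∀ m x, Q m (Q m x) = Q m x) (hQn : ∀ m x, ‖Q m x‖ ≤ κ * ‖x‖)
    (hQ1 : ∀ m x, Q m (Ph S (((n' + 1 : ℕ) : ℤ) * (m + 1)) (n' + 1) (Q (m + 1) x)) =
      Ph S (((n' + 1 : ℕ) : ℤ) * (m + 1)) (n' + 1) (Q (m + 1) x))
    (hQ2 : ∀ m x, Q (m + 1) ((Ph S (((n' + 1 : ℕ) : ℤ) * (m + 1)) (n' + 1)).symm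
      (x - Q m x)) = 0)
    (hQ3 : ∀ m x, ‖Ph S (((n' + 1 : ℕ) : ℤ) * (m + 1)) (n' + 1) (Q (m + 1) x)‖ ≤ 1 / 2 * ‖x‖)
    (hQ4 : ∀ m x, ‖(Ph S (((n' + 1 : ℕ) : ℤ) * (m + 1)) (n' + 1)).symm (x - Q m x)‖ ≤
      1 / 2 * ‖x‖) :
    GenHypAux σ := by
  set n : ℕ := n' + 1 with hn
  have hn1 : 1 ≤ n := by omega
  have hn0 : (0 : ℤ) < n := by exact_mod_cast hn1
  set A : ℤ → X ≃L[𝕜] X := fun m => Ph S ((n : ℤ) * (m + 1)) n with hA
  have hC0 : 0 ≤ C := by linarith
  -- the subspaces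
  let M : Submodule 𝕜 (lp (fun _ : ℤ => X) p) :=
    { carrier := {x | ∀ (m : ℤ) (j : ℕ), j < n → bcL S n m j x - Q m (bcL S n m j x) = 0}
      add_mem' := by
        intro x y hx hy m j hj
        rw [map_add, map_add, add_sub_add_comm, hx m j hj, hy m j hj, add_zero]
      zero_mem' := by
        intro m j hj
        rw [map_zero, map_zero, sub_zero]
      smul_mem' := by
        intro c x hx m j hj
        rw [map_smul, map_smul, ← smul_sub, hx m j hj, smul_zero] }
  let N : Submodule 𝕜 (lp (fun _ : ℤ => X) p) :=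
    { carrier := {x | ∀ (m : ℤ) (j : ℕ), j < n → Q m (bcL S n m j x) = 0}
      add_mem' := by
        intro x y hx hy m j hj
        rw [map_add, map_add, hx m j hj, hy m j hj, add_zero]
      zero_mem' := by
        intro m j hj
        rw [map_zero, map_zero]
      smul_mem' := by
        intro c x hx m j hj
        rw [map_smul, map_smul, hx m j hj, smul_zero] }
  have hMmem : ∀ x, x ∈ M ↔ ∀ (m : ℤ) (j : ℕ), j < n → Q m (bc S n m j x) = bc S n m j x := by
    intro x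
    constructor
    · intro h m j hj
      exact (sub_eq_zero.1 (h m j hj)).symm
    · intro h m j hj
      exact sub_eq_zero.2 (h m j hj).symm
  have hNmem : ∀ x, x ∈ N ↔ ∀ (m : ℤ) (j : ℕ), j < n → Q m (bc S n m j x) = 0 := by
    intro x
    exact Iff.rfl
  have hMc : IsClosed (M : Set (lp (fun _ : ℤ => X) p)) := by
    have h1 : (M : Set (lp (fun _ : ℤ => X) p)) =
        ⋂ m : ℤ, ⋂ j : ℕ, ⋂ _ : j < n, {x | bcL S n m j x - Q m (bcL S n m j x) = 0} := by
      ext x
      simp only [mem_iInter]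
      exact Iff.rfl
    rw [h1]
    refine isClosed_iInter fun m => isClosed_iInter fun j => isClosed_iInter fun _ =>
      isClosed_eq ?_ continuous_const
    exact (bcL S n m j).continuous.sub ((Q m).continuous.comp (bcL S n m j).continuous)
  have hNc : IsClosed (N : Set (lp (fun _ : ℤ => X) p)) := by
    have h1 : (N : Set (lp (fun _ : ℤ => X) p)) =
        ⋂ m : ℤ, ⋂ j : ℕ, ⋂ _ : j < n, {x | Q m (bcL S n m j x) = 0} := by
      ext x
      simp only [mem_iInter]
      exact Iff.rfl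
    rw [h1]
    refine isClosed_iInter fun m => isClosed_iInter fun j => isClosed_iInter fun _ =>
      isClosed_eq ?_ continuous_const
    exact (Q m).continuous.comp (bcL S n m j).continuous
  -- places
  have hplace : ∀ (x : lp (fun _ : ℤ => X) p), (∀ (m : ℤ) (j : ℕ), j < n → bc S n m j x = 0) →
      x = 0 := by
    intro x h
    apply lp.ext
    funext k
    have h1 := h (bm n k) (bj n k) (bj_lt hn1 k)
    have h2 := bc_eq S n (bm n k) (bj n k) x
    rw [h1, map_zero, b_eq hn1] at h2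
    rw [← h2]
    rfl
  -- projection
  have hproj : ∀ x : lp (fun _ : ℤ => X) p, ∃ y : lp (fun _ : ℤ => X) p,
      ∀ (m : ℤ) (j : ℕ), j < n → bc S n m j y = Q m (bc S n m j x) := by
    intro x
    set f : ℤ → X := fun k => Ph S (n * bm n k) (bj n k) (Q (bm n k) (bc S n (bm n k) (bj n k) x))
      with hf
    have hfn : ∀ k, ‖f k‖ ≤ (C ^ n * (|κ| * C ^ n)) * ‖x k‖ := by
      intro k
      have h1 : C ^ (bj n k) ≤ C ^ n := pow_le_pow_right₀ hC (bj_lt hn1 k).le
      have h2 : ‖bc S n (bm n k) (bj n k) x‖ ≤ C ^ n * ‖x k‖ := by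
        unfold bc
        rw [b_eq hn1]
        refine (Ph_symm_norm S hC hS2 _ _ _).trans ?_
        gcongr
      calc ‖f k‖ ≤ C ^ (bj n k) * ‖Q (bm n k) (bc S n (bm n k) (bj n k) x)‖ :=
            Ph_norm S hC hS1 _ _ _
        _ ≤ C ^ n * (|κ| * (C ^ n * ‖x k‖)) := by
          gcongr
          refine (hQn _ _).trans ?_
          refine mul_le_mul (le_abs_self κ) h2 (norm_nonneg _) (abs_nonneg _)
        _ = _ := by ring
    have hmem : Memℓp f p := by
      refine Memℓp.mono' (lp.memℓp ((((C ^ n * (|κ| * C ^ n) : ℝ)) : 𝕜) • x)) (fun k => ?_)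
      rw [lp.coeFn_smul, Pi.smul_apply, norm_smul, RCLike.norm_ofReal,
        abs_of_nonneg (by positivity)]
      exact hfn k
    refine ⟨⟨f, hmem⟩, fun m j hj => ?_⟩
    have h1 := b_eq hn1 ((n : ℤ) * m - j)
    obtain ⟨h2, h3⟩ := b_uniq (bj_lt hn1 _) hj h1
    show (Ph S (n * m) j).symm (f ((n : ℤ) * m - j)) = _
    simp only [hf]
    rw [h2, h3, ContinuousLinearEquiv.symm_apply_apply]
  have hsubbc : ∀ (m : ℤ) (j : ℕ) (x y : lp (fun _ : ℤ => X) p),
      bc S n m j (x - y) = bc S n m j x - bc S n m j y := by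
    intro m j x y
    rw [← bcL_apply, map_sub]
    rfl
  -- the sum is direct
  have hcompl : IsCompl M N := by
    constructor
    · rw [Submodule.disjoint_def]
      intro x hx hy
      refine hplace x (fun m j hj => ?_)
      rw [← (hMmem x).1 hx m j hj]
      exact (hNmem x).1 hy m j hj
    · rw [codisjoint_iff, eq_top_iff]
      intro x _
      obtain ⟨y, hy⟩ := hproj x
      refine Submodule.mem_sup.2 ⟨y, ?_, x - y, ?_, by abel⟩
      · rw [hMmem]
        intro m j hj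
        rw [hy m j hj, hQQ]
      · rw [hNmem]
        intro m j hj
        rw [hsubbc, hy m j hj, map_sub, hQQ, sub_self]
  -- invariance
  have hMinv : ∀ x ∈ M, σ x ∈ M := by
    intro x hx
    rw [hMmem] at hx ⊢
    intro m j hj
    rcases j with _ | j
    · rw [bc_zero hσ, ← hx (m + 1) n' (by omega)]
      exact hQ1 _ _
    · rw [bc_succ hσ]
      exact hx m j (by omega)
  have hNinv : ∀ x ∈ N, σ.symm x ∈ N := by
    intro x hx
    rw [hNmem] at hx ⊢
    have hx2 : x = σ (σ.symm x) := (σ.apply_symm_apply x).symm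
    intro m j hj
    rcases Nat.lt_or_ge (j + 1) n with h | h
    · have h1 := hx m (j + 1) h
      rw [hx2, bc_succ hσ] at h1
      exact h1
    · have h2 : j = n' := by omega
      subst h2
      have h3 := bc_zero hσ j (m - 1) (σ.symm x)
      rw [← hx2, sub_add_cancel] at h3
      have h4 := hx (m - 1) 0 (by omega)
      have h5 : bc S (j + 1) m j (σ.symm x) =
          (Ph S (((j + 1 : ℕ) : ℤ) * m) (j + 1)).symm (bc S (j + 1) (m - 1) 0 x) := by
        rw [h3, ContinuousLinearEquiv.symm_apply_apply]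
      have h6 := hQ2 (m - 1) (bc S (j + 1) (m - 1) 0 x)
      rw [h4, sub_zero, sub_add_cancel] at h6
      rw [h5]
      exact h6
  have hMinvk : ∀ (k : ℕ), ∀ x ∈ M, σ^[k] x ∈ M := by
    intro k
    induction k with
    | zero => intro x hx; exact hx
    | succ k ih => intro x hx; rw [Function.iterate_succ_apply']; exact hMinv _ (ih x hx)
  have hNinvk : ∀ (k : ℕ), ∀ x ∈ N, σ.symm^[k] x ∈ N := by
    intro k
    induction k with
    | zero => intro x hx; exact hx
    | succ k ih => intro x hx; rw [Function.iterate_succ_apply']; exact hNinv _ (ih x hx)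
  have hcancel : ∀ (k : ℕ) (x : lp (fun _ : ℤ => X) p), σ^[k] (σ.symm^[k] x) = x := by
    intro k
    induction k with
    | zero => intro x; rfl
    | succ k ih =>
      intro x
      rw [Function.iterate_succ_apply, Function.iterate_succ_apply', σ.apply_symm_apply, ih]
  -- decay of block coordinates
  have hdecM : ∀ x ∈ M, ∀ (L : ℕ) (m : ℤ) (j : ℕ), j < n →
      ‖bc S n m j (σ^[n * L] x)‖ ≤ (1 / 2) ^ L * ‖bc S n (m + L) j x‖ := by
    intro x hx L
    induction L with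
    | zero =>
      intro m j hj
      rw [Nat.mul_zero, pow_zero, one_mul, Nat.cast_zero, add_zero]
      exact le_rfl
    | succ L ih =>
      intro m j hj
      have h1 : σ^[n * (L + 1)] x = σ^[n] (σ^[n * L] x) := by
        rw [← Function.iterate_add_apply]
        congr 1
        ring
      rw [h1, bc_iter hσ n' m hj]
      have h2 := (hMmem _).1 (hMinvk (n * L) x hx) (m + 1) j hj
      have h3 := hQ3 m (bc S n (m + 1) j (σ^[n * L] x))
      rw [h2] at h3
      have h4 := ih (m + 1) j hj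
      have h5 : m + 1 + (L : ℤ) = m + ((L + 1 : ℕ) : ℤ) := by push_cast; ring
      rw [h5] at h4
      refine h3.trans ?_
      rw [pow_succ]
      linarith
  have hdecN : ∀ x ∈ N, ∀ (L : ℕ) (m : ℤ) (j : ℕ), j < n →
      ‖bc S n (m + L) j (σ.symm^[n * L] x)‖ ≤ (1 / 2) ^ L * ‖bc S n m j x‖ := by
    intro x hx L
    induction L with
    | zero =>
      intro m j hj
      rw [Nat.mul_zero, pow_zero, one_mul, Nat.cast_zero, add_zero]
      exact le_rfl
    | succ L ih =>
      intro m j hj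
      have h1 : σ.symm^[n * (L + 1)] x = σ.symm^[n] (σ.symm^[n * L] x) := by
        rw [← Function.iterate_add_apply]
        congr 1
        ring
      have h2 := bc_iter hσ n' (m + L) hj (σ.symm^[n] (σ.symm^[n * L] x))
      rw [hcancel n] at h2
      have h5 : m + (L : ℤ) + 1 = m + ((L + 1 : ℕ) : ℤ) := by push_cast; ring
      have h6 : bc S n (m + ((L + 1 : ℕ) : ℤ)) j (σ.symm^[n] (σ.symm^[n * L] x)) =
          (Ph S (((n' + 1 : ℕ) : ℤ) * (m + L + 1)) (n' + 1)).symm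
            (bc S n (m + L) j (σ.symm^[n * L] x)) := by
        rw [h2, ContinuousLinearEquiv.symm_apply_apply, h5]
      rw [h1, h6]
      have h7 := (hNmem _).1 (hNinvk (n * L) x hx) (m + L) j hj
      have h8 := hQ4 (m + L) (bc S n (m + L) j (σ.symm^[n * L] x))
      rw [h7, sub_zero] at h8
      have h4 := ih m j hj
      refine h8.trans ?_
      rw [pow_succ]
      linarith
  -- choice of the exponent
  obtain ⟨L, hL⟩ : ∃ L : ℕ, (C ^ n * C ^ n) * (1 / 2 : ℝ) ^ L < 1 / 2 := by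
    have h3 : Tendsto (fun L : ℕ => (C ^ n * C ^ n) * (1 / 2 : ℝ) ^ L) atTop (𝓝 0) := by
      simpa using (tendsto_pow_atTop_nhds_zero_of_lt_one (r := (1 / 2 : ℝ)) (by norm_num)
        (by norm_num)).const_mul (C ^ n * C ^ n)
    exact (h3.eventually (gt_mem_nhds (show (0 : ℝ) < 1 / 2 by norm_num))).exists
  have hL1 : 1 ≤ L := by
    by_contra hcon
    have : L = 0 := by omega
    rw [this, pow_zero, mul_one] at hL
    have h1 : 1 ≤ C ^ n := one_le_pow₀ hC
    nlinarith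
  have hval : ∀ (m : ℤ) (j : ℕ), j < n → ∀ x : lp (fun _ : ℤ => X) p,
      ‖x (n * m - j)‖ ≤ C ^ n * ‖bc S n m j x‖ := by
    intro m j hj x
    rw [← bc_eq S n m j x]
    refine (Ph_norm S hC hS1 _ _ _).trans ?_
    have : C ^ j ≤ C ^ n := pow_le_pow_right₀ hC hj.le
    gcongr
  have hval' : ∀ (m : ℤ) (j : ℕ), j < n → ∀ x : lp (fun _ : ℤ => X) p,
      ‖bc S n m j x‖ ≤ C ^ n * ‖x (n * m - j)‖ := by
    intro m j hj x
    refine (Ph_symm_norm S hC hS2 _ _ _).trans ?_
    have : C ^ j ≤ C ^ n := pow_le_pow_right₀ hC hj.le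
    gcongr
  refine ⟨M, N, hMc, hNc, hcompl, hMinv, hNinv, ⟨n * L, ?_, 1 / 2, by norm_num, ?_⟩,
    ⟨n * L, ?_, 1 / 2, by norm_num, ?_⟩⟩
  · exact Nat.mul_pos hn1 hL1
  · intro x hx
    have h1 : ‖σ^[n * L] x‖ ≤ (C ^ n * C ^ n * (1 / 2) ^ L) * ‖x‖ := by
      refine norm_le_shift (𝕜 := 𝕜) _ _ (by positivity) ((n : ℤ) * L) (fun k => ?_)
      have hj := bj_lt hn1 k
      have e1 := b_eq hn1 k
      have h2 := hval (bm n k) (bj n k) hj (σ^[n * L] x)
      have h3 := hdecM x hx L (bm n k) (bj n k) hj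
      have h4 := hval' (bm n k + L) (bj n k) hj x
      rw [e1] at h2
      have e2 : (n : ℤ) * (bm n k + L) - (bj n k : ℤ) = k + n * L := by
        rw [mul_add]; linarith
      rw [e2] at h4
      calc ‖(σ^[n * L] x) k‖ ≤ C ^ n * ((1 / 2) ^ L * (C ^ n * ‖x (k + n * L)‖)) := by
            refine h2.trans ?_
            gcongr
            refine h3.trans ?_
            gcongr
        _ = _ := by ring
    refine h1.trans ?_
    gcongr
  · exact Nat.mul_pos hn1 hL1
  · intro x hx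
    have h1 : ‖σ.symm^[n * L] x‖ ≤ (C ^ n * C ^ n * (1 / 2) ^ L) * ‖x‖ := by
      refine norm_le_shift (𝕜 := 𝕜) _ _ (by positivity) (-((n : ℤ) * L)) (fun k => ?_)
      have hj := bj_lt hn1 k
      have e1 := b_eq hn1 k
      have h2 := hval (bm n k) (bj n k) hj (σ.symm^[n * L] x)
      have h3 := hdecN x hx L (bm n k - L) (bj n k) hj
      rw [sub_add_cancel] at h3
      have h4 := hval' (bm n k - L) (bj n k) hj x
      rw [e1] at h2
      have e2 : (n : ℤ) * (bm n k - L) - (bj n k : ℤ) = k + -(n * L) := by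
        rw [mul_sub]; linarith
      rw [e2] at h4
      calc ‖(σ.symm^[n * L] x) k‖ ≤ C ^ n * ((1 / 2) ^ L * (C ^ n * ‖x (k + -(n * L))‖)) := by
            refine h2.trans ?_
            gcongr
            refine h3.trans ?_
            gcongr
        _ = _ := by ring
    refine h1.trans ?_
    gcongr

end As

end Pool.Agent.KS6_15.HS
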