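import Mathlib
import Pool.Agent.KS6_15.HS.Shad

/-!
Generalized hyperbolicity of a power implies the shadowing property.
-/

set_option autoImplicit false

open Filter Topology Set

noncomputable section

namespace Pool.Agent.KS6_15.HS

open Pool.Agent.Results.MP_0764b2_an.ShadowingNotGenHyp

section Cv

variable {𝕜 : Type} [RCLike 𝕜] {Y : Type} [NormedAddCommGroup Y] [NormedSpace 𝕜 Y]

/-- splitting with geometric decay -/
def SplitsG (T : Y ≃L[𝕜] Y) : Prop :=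
  ∃ C θ : ℝ, 0 ≤ C ∧ 0 ≤ θ ∧ θ < 1 ∧ ∀ y : Y, ∃ s u : Y, s + u = y ∧
    (∀ k : ℕ, ‖T^[k] s‖ ≤ C * θ ^ k * ‖y‖) ∧
    (∀ k : ℕ, ‖T.symm^[k] u‖ ≤ C * θ ^ k * ‖y‖)

theorem SplitsG.shadowingAux [CompleteSpace Y] {T : Y ≃L[𝕜] Y} (h : SplitsG T) :
    ShadowingAux T := by
  obtain ⟨C, θ, hC, hθ0, hθ1, h⟩ := h
  choose s u hsu hs hu using h
  have hθ2 : 0 < 1 - θ := by linarith
  refine ⟨2 * (C * (1 - θ)⁻¹) + 1, by positivity, fun z hz => ?_⟩
  set Z : ℝ := ⨆ n, ‖z n‖ with hZ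
  have hbdd : BddAbove (range fun n => ‖z n‖) := by
    obtain ⟨R, hR⟩ := hz.exists_norm_le
    refine ⟨R, ?_⟩
    rintro _ ⟨n, rfl⟩
    exact hR _ ⟨n, rfl⟩
  have hzZ : ∀ n, ‖z n‖ ≤ Z := fun n => le_ciSup hbdd n
  have hZ0 : 0 ≤ Z := (norm_nonneg _).trans (hzZ 0)
  have hgeo : Summable (fun k : ℕ => C * θ ^ k * Z) :=
    ((summable_geometric_of_lt_one hθ0 hθ1).mul_left C).mul_right Z
  have hgeoS : ∑' k : ℕ, C * θ ^ k * Z = C * (1 - θ)⁻¹ * Z := by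
    rw [tsum_mul_right, tsum_mul_left, tsum_geometric_of_lt_one hθ0 hθ1]
  -- forward part
  set a : ℤ → Y := fun n => ∑' k : ℕ, T^[k] (s (z (n - 1 - k))) with ha
  set b : ℤ → Y := fun n => ∑' k : ℕ, T.symm^[k + 1] (u (z (n + k))) with hb
  have hsb : ∀ (k : ℕ) (n : ℤ), ‖T^[k] (s (z n))‖ ≤ C * θ ^ k * Z := by
    intro k n
    refine (hs (z n) k).trans ?_
    gcongr
    exact hzZ n
  have hub : ∀ (k : ℕ) (n : ℤ), ‖T.symm^[k] (u (z n))‖ ≤ C * θ ^ k * Z := by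
    intro k n
    refine (hu (z n) k).trans ?_
    gcongr
    exact hzZ n
  have hub1 : ∀ (k : ℕ) (n : ℤ), ‖T.symm^[k + 1] (u (z n))‖ ≤ C * θ ^ k * Z := by
    intro k n
    refine (hub (k + 1) n).trans ?_
    have : θ ^ (k + 1) ≤ θ ^ k := pow_le_pow_of_le_one hθ0 hθ1.le (Nat.le_succ k)
    gcongr
  have hsS : ∀ n : ℤ, Summable (fun k : ℕ => T^[k] (s (z (n - 1 - k)))) := fun n =>
    Summable.of_norm_bounded hgeo (fun k => hsb k _)
  have huS : ∀ n : ℤ, Summable (fun k : ℕ => T.symm^[k + 1] (u (z (n + k)))) := fun n =>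
    Summable.of_norm_bounded hgeo (fun k => hub1 k _)
  have han : ∀ n, ‖a n‖ ≤ C * (1 - θ)⁻¹ * Z := by
    intro n
    rw [← hgeoS]
    exact tsum_of_norm_bounded hgeo.hasSum (fun k => hsb k _)
  have hbn : ∀ n, ‖b n‖ ≤ C * (1 - θ)⁻¹ * Z := by
    intro n
    rw [← hgeoS]
    exact tsum_of_norm_bounded hgeo.hasSum (fun k => hub1 k _)
  have haT : ∀ n, a (n + 1) = s (z n) + T (a n) := by
    intro n
    have h1 : T (a n) = ∑' k : ℕ, T^[k + 1] (s (z (n - 1 - k))) := by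
      simp only [ha, Function.iterate_succ_apply']
      exact T.map_tsum
    rw [h1]
    simp only [ha]
    rw [(hsS (n + 1)).tsum_eq_zero_add]
    congr 1
    · simp
    · apply tsum_congr
      intro k
      congr 3
      push_cast
      ring
  have hbT : ∀ n, T (b n) = u (z n) + b (n + 1) := by
    intro n
    have h1 : T (b n) = ∑' k : ℕ, T.symm^[k] (u (z (n + k))) := by
      simp only [hb, Function.iterate_succ_apply']
      rw [T.map_tsum]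
      simp
    have h2 : Summable (fun k : ℕ => T.symm^[k] (u (z (n + k)))) :=
      Summable.of_norm_bounded hgeo (fun k => hub k _)
    rw [h1, h2.tsum_eq_zero_add]
    congr 1
    · simp
    · simp only [hb]
      apply tsum_congr
      intro k
      congr 3
      push_cast
      ring
  have hyn : ∀ n, ‖a n - b n‖ ≤ 2 * (C * (1 - θ)⁻¹) * Z := by
    intro n
    calc ‖a n - b n‖ ≤ ‖a n‖ + ‖b n‖ := norm_sub_le _ _
      _ ≤ C * (1 - θ)⁻¹ * Z + C * (1 - θ)⁻¹ * Z := add_le_add (han n) (hbn n)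
      _ = 2 * (C * (1 - θ)⁻¹) * Z := by ring
  refine ⟨fun n => a n - b n, ?_, ?_, ?_⟩
  · rw [isBounded_iff_forall_norm_le]
    refine ⟨2 * (C * (1 - θ)⁻¹) * Z, ?_⟩
    rintro _ ⟨n, rfl⟩
    exact hyn n
  · intro n
    have h1 : a (n + 1) - b (n + 1) - T (a n - b n) = s (z n) + u (z n) := by
      rw [haT, map_sub, hbT]
      abel
    rw [hsu] at h1
    exact h1
  · refine ciSup_le (fun n => (hyn n).trans ?_)
    nlinarith

/-- a geometric bound along multiples gives a geometric bound -/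
lemma geo_div {a : ℕ} (ha : 1 ≤ a) {r : ℝ} (hr0 : 0 ≤ r) (hr1 : r < 1) :
    ∃ θ D : ℝ, 0 ≤ θ ∧ θ < 1 ∧ 0 ≤ D ∧ ∀ k : ℕ, r ^ (k / a) ≤ D * θ ^ k := by
  set r' : ℝ := max r (1 / 2) with hr'
  have h0 : 0 < r' := lt_of_lt_of_le (by norm_num) (le_max_right _ _)
  have h1 : r' < 1 := max_lt hr1 (by norm_num)
  have ha0 : (0 : ℝ) < a := by exact_mod_cast ha
  set θ : ℝ := r' ^ ((1 : ℝ) / a) with hθ
  have hθ0 : 0 < θ := Real.rpow_pos_of_pos h0 _
  have hθ1 : θ < 1 := Real.rpow_lt_one h0.le h1 (by positivity)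
  have hθa : θ ^ a = r' := by
    rw [hθ, ← Real.rpow_natCast, ← Real.rpow_mul h0.le, one_div_mul_cancel ha0.ne', Real.rpow_one]
  refine ⟨θ, 1 / r', hθ0.le, hθ1, by positivity, fun k => ?_⟩
  have h2 : r ^ (k / a) ≤ r' ^ (k / a) := pow_le_pow_left₀ hr0 (le_max_left _ _) _
  have h3 : k ≤ a * (k / a + 1) := by
    have := Nat.lt_mul_div_succ k (Nat.lt_of_lt_of_le Nat.zero_lt_one ha)
    exact this.le
  have h4 : θ ^ (a * (k / a + 1)) ≤ θ ^ k := pow_le_pow_of_le_one hθ0.le hθ1.le h3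
  rw [pow_mul, hθa, pow_succ] at h4
  refine h2.trans ?_
  rw [div_mul_eq_mul_div, one_mul, le_div_iff₀ h0]
  exact h4

lemma iter_norm (T : Y ≃L[𝕜] Y) {τ : ℝ} (hτ : 1 ≤ τ) (hT : ∀ x, ‖T x‖ ≤ τ * ‖x‖) {i a : ℕ}
    (hi : i ≤ a) (x : Y) : ‖T^[i] x‖ ≤ τ ^ a * ‖x‖ := by
  have h1 : ‖T^[i] x‖ ≤ τ ^ i * ‖x‖ := by
    clear hi
    induction i with
    | zero => simp
    | succ i ih =>
      rw [Function.iterate_succ_apply']
      calc ‖T (T^[i] x)‖ ≤ τ * ‖T^[i] x‖ := hT _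
        _ ≤ τ * (τ ^ i * ‖x‖) := by gcongr
        _ = _ := by ring
  refine h1.trans ?_
  have : τ ^ i ≤ τ ^ a := pow_le_pow_right₀ hτ hi
  gcongr

lemma pow_iter (T : Y ≃L[𝕜] Y) (n k : ℕ) (x : Y) : (T ^ n)^[k] x = T^[n * k] x := by
  have h1 : ∀ m (y : Y), (T ^ m) y = T^[m] y := by
    intro m
    induction m with
    | zero => intro y; rfl
    | succ m ih =>
      intro y
      rw [pow_succ', Function.iterate_succ_apply', ← ih]
      rfl
  induction k with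
  | zero => rfl
  | succ k ih =>
    rw [Function.iterate_succ_apply', ih, h1, ← Function.iterate_add_apply]
    congr 1
    ring

lemma pow_symm_iter (T : Y ≃L[𝕜] Y) (n k : ℕ) (x : Y) :
    (T ^ n).symm^[k] x = T.symm^[n * k] x := by
  have h0 : (T ^ n).symm = T.symm ^ n := by
    have : (T ^ n)⁻¹ = T⁻¹ ^ n := (inv_pow T n).symm
    exact this
  rw [h0, pow_iter]

/-- **A generalized hyperbolic power implies the shadowing property.** -/
theorem shadowing_of_pow [CompleteSpace Y] {T : Y ≃L[𝕜] Y} {n : ℕ} (hn : 1 ≤ n)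
    (h : GenHypAux (T ^ n)) : ShadowingAux T := by
  obtain ⟨P, a, b, r, C, ha, hb, hr0, hr1, hC, h1, h2⟩ := h.star
  simp only [pow_iter] at h1
  simp only [pow_symm_iter] at h2
  set τ : ℝ := max 1 (max ‖(T : Y →L[𝕜] Y)‖ ‖(T.symm : Y →L[𝕜] Y)‖) with hτ
  have hτ1 : 1 ≤ τ := le_max_left _ _
  have hT1 : ∀ x, ‖T x‖ ≤ τ * ‖x‖ := fun x => by
    refine ((T : Y →L[𝕜] Y).le_opNorm x).trans ?_
    gcongr
    exact (le_max_left _ _).trans (le_max_right _ _)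
  have hT2 : ∀ x, ‖T.symm x‖ ≤ τ * ‖x‖ := fun x => by
    refine ((T.symm : Y →L[𝕜] Y).le_opNorm x).trans ?_
    gcongr
    exact (le_max_right _ _).trans (le_max_right _ _)
  have key : ∀ (U : Y ≃L[𝕜] Y) (c : ℕ), 1 ≤ c → (∀ x, ‖U x‖ ≤ τ * ‖x‖) →
      ∃ C' θ : ℝ, 0 ≤ C' ∧ 0 ≤ θ ∧ θ < 1 ∧ ∀ (y z : Y),
        (∀ j : ℕ, ‖U^[c * j] z‖ ≤ C * r ^ j * ‖y‖) → ∀ k : ℕ, ‖U^[k] z‖ ≤ C' * θ ^ k * ‖y‖ := by
    intro U c hc hU
    obtain ⟨θ, D, hθ0, hθ1, hD, hk⟩ := geo_div hc hr0 hr1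
    refine ⟨τ ^ c * C * D, θ, by positivity, hθ0, hθ1, fun y z hz k => ?_⟩
    have h3 : U^[k] z = U^[k % c] (U^[c * (k / c)] z) := by
      rw [← Function.iterate_add_apply]
      congr 1
      rw [Nat.mod_add_div]
    rw [h3]
    calc ‖U^[k % c] (U^[c * (k / c)] z)‖ ≤ τ ^ c * ‖U^[c * (k / c)] z‖ :=
          iter_norm U hτ1 hU (Nat.mod_lt _ (by omega)).le _
      _ ≤ τ ^ c * (C * r ^ (k / c) * ‖y‖) := by gcongr; exact hz _
      _ ≤ τ ^ c * (C * (D * θ ^ k) * ‖y‖) := by gcongr; exact hk k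
      _ = _ := by ring
  have e1 : ∀ (j : ℕ) (y : Y), ‖T^[(n * a) * j] (P y)‖ ≤ C * r ^ j * ‖y‖ := by
    intro j y
    have := h1 j y
    rw [← Nat.mul_assoc] at this
    exact this
  have e2 : ∀ (j : ℕ) (y : Y), ‖T.symm^[(n * b) * j] (y - P y)‖ ≤ C * r ^ j * ‖y‖ := by
    intro j y
    have := h2 j y
    rw [← Nat.mul_assoc] at this
    exact this
  obtain ⟨C1, θ1, hC1, hθ10, hθ11, hk1⟩ := key T (n * a) (Nat.mul_pos hn ha) hT1
  obtain ⟨C2, θ2, hC2, hθ20, hθ21, hk2⟩ := key T.symm (n * b) (Nat.mul_pos hn hb) hT2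
  refine SplitsG.shadowingAux ⟨max C1 C2, max θ1 θ2, le_max_of_le_left hC1, le_max_of_le_left hθ10,
    max_lt hθ11 hθ21, fun y => ⟨P y, y - P y, by abel, fun k => ?_, fun k => ?_⟩⟩
  · refine (hk1 y (P y) (fun j => e1 j y) k).trans ?_
    gcongr
    · exact le_max_left _ _
    · exact le_max_left _ _
  · refine (hk2 y (y - P y) (fun j => e2 j y) k).trans ?_
    gcongr
    · exact le_max_right _ _
    · exact le_max_right _ _

end Cv

end Pool.Agent.KS6_15.HS
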