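import Mathlib

/-!
Graph transform for families in a Banach algebra: a family of approximately invariant idempotents
is close to an invariant one.
-/

set_option autoImplicit false

open Filter Topology

namespace Pool.Agent.KS6_15.HS

section GT

variable {ι R : Type*} [NormedRing R]

/-- the iteration -/
noncomputable def zit (e : ι → ι) (A Ai π : ι → R) : ℕ → ι → R
  | 0 => fun _ => 0
  | m + 1 => fun i =>
      A i * π i + Ai (e i) * (1 - π (e (e i))) * zit e A Ai π m (e i) * π (e i) * zit e A Ai π m i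

variable {e : ι → ι} {A Ai π : ι → R} {κ s : ℝ}

lemma zit_norm (hκ : 1 ≤ κ) (hs : 0 ≤ s) (hks : 16 * κ * s ≤ 1) (hπn : ∀ i, ‖π i‖ ≤ κ)
    (hT : ∀ i, ‖A i * π i‖ ≤ s) (hU : ∀ i, ‖Ai i * (1 - π (e i))‖ ≤ s) (m : ℕ) :
    ∀ i, ‖zit e A Ai π m i‖ ≤ 2 * s := by
  induction m with
  | zero => intro i; simp only [zit, norm_zero]; positivity
  | succ m ih =>
    intro i
    simp only [zit]
    refine (norm_add_le _ _).trans ?_
    have h1 : ‖Ai (e i) * (1 - π (e (e i))) * zit e A Ai π m (e i) * π (e i) *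
        zit e A Ai π m i‖ ≤ s * (2 * s) * κ * (2 * s) := by
      refine (norm_mul_le _ _).trans (mul_le_mul ?_ (ih i) (norm_nonneg _) (by positivity))
      refine (norm_mul_le _ _).trans (mul_le_mul ?_ (hπn _) (norm_nonneg _) (by positivity))
      exact (norm_mul_le _ _).trans (mul_le_mul (hU _) (ih _) (norm_nonneg _) hs)
    have h2 := hT i
    have h3 : s * (2 * s) * κ * (2 * s) ≤ s := by
      have h4 : s * (2 * s) * κ * (2 * s) = (16 * κ * s) * (s * s / 4) := by ring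
      have h5 : s ≤ 1 := by nlinarith
      rw [h4]
      nlinarith [mul_nonneg hs hs]
    linarith

lemma zit_step (hκ : 1 ≤ κ) (hs : 0 ≤ s) (hks : 16 * κ * s ≤ 1) (hπn : ∀ i, ‖π i‖ ≤ κ)
    (hT : ∀ i, ‖A i * π i‖ ≤ s) (hU : ∀ i, ‖Ai i * (1 - π (e i))‖ ≤ s) (m : ℕ) :
    ∀ i, ‖zit e A Ai π (m + 1) i - zit e A Ai π m i‖ ≤ s * (1 / 2) ^ m := by
  induction m with
  | zero =>
    intro i
    simp only [zit, mul_zero, add_zero, sub_zero, pow_zero, mul_one]
    exact hT i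
  | succ m ih =>
    intro i
    set a := zit e A Ai π (m + 1) with ha
    set b := zit e A Ai π m with hb
    have e1 : zit e A Ai π (m + 1 + 1) i - a i =
        Ai (e i) * (1 - π (e (e i))) * ((a (e i) - b (e i)) * π (e i) * a i +
          b (e i) * π (e i) * (a i - b i)) := by
      have h1 : zit e A Ai π (m + 1 + 1) i =
          A i * π i + Ai (e i) * (1 - π (e (e i))) * a (e i) * π (e i) * a i := rfl
      have h2 : a i = A i * π i + Ai (e i) * (1 - π (e (e i))) * b (e i) * π (e i) * b i := rfl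
      rw [h1]
      nth_rw 2 [h2]
      noncomm_ring
    have ha2 := zit_norm (A := A) hκ hs hks hπn hT hU (m + 1)
    have hb2 := zit_norm (A := A) hκ hs hks hπn hT hU m
    rw [e1]
    set d : ℝ := s * (1 / 2) ^ m with hd
    have hd0 : 0 ≤ d := by positivity
    have h3 : ‖(a (e i) - b (e i)) * π (e i) * a i‖ ≤ d * κ * (2 * s) := by
      refine (norm_mul_le _ _).trans (mul_le_mul ?_ (ha2 i) (norm_nonneg _) (by positivity))
      exact (norm_mul_le _ _).trans (mul_le_mul (ih _) (hπn _) (norm_nonneg _) hd0)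
    have h4 : ‖b (e i) * π (e i) * (a i - b i)‖ ≤ 2 * s * κ * d := by
      refine (norm_mul_le _ _).trans (mul_le_mul ?_ (ih i) (norm_nonneg _) (by positivity))
      exact (norm_mul_le _ _).trans (mul_le_mul (hb2 _) (hπn _) (norm_nonneg _) (by positivity))
    have h5 : ‖Ai (e i) * (1 - π (e (e i))) * ((a (e i) - b (e i)) * π (e i) * a i +
          b (e i) * π (e i) * (a i - b i))‖ ≤ s * (d * κ * (2 * s) + 2 * s * κ * d) := by
      refine (norm_mul_le _ _).trans (mul_le_mul (hU _) ?_ (norm_nonneg _) hs)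
      exact (norm_add_le _ _).trans (add_le_add h3 h4)
    refine h5.trans ?_
    have h6 : s * (1 / 2) ^ (m + 1) = d / 2 := by rw [hd, pow_succ]; ring
    rw [h6]
    have h7 : s * (d * κ * (2 * s) + 2 * s * κ * d) = (16 * κ * s) * (s * d / 4) := by ring
    have h8 : s ≤ 1 := by nlinarith
    rw [h7]
    have h9 : 0 ≤ s * d := by positivity
    nlinarith

lemma zit_pi (hπ : ∀ i, π i * π i = π i) (m : ℕ) :
    ∀ i, zit e A Ai π m i * π i = zit e A Ai π m i := by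
  induction m with
  | zero => intro i; simp [zit]
  | succ m ih =>
    intro i
    simp only [zit]
    rw [add_mul, mul_assoc (A i), hπ, mul_assoc _ (zit e A Ai π m i), ih]

/-- **Graph transform.** -/
theorem graph [CompleteSpace R] (hκ : 1 ≤ κ) (hs : 0 ≤ s) (hks : 16 * κ * s ≤ 1)
    (hAAi : ∀ i, A i * Ai i = 1)
    (hπ : ∀ i, π i * π i = π i) (hπn : ∀ i, ‖π i‖ ≤ κ)
    (hT : ∀ i, ‖A i * π i‖ ≤ s) (hU : ∀ i, ‖Ai i * (1 - π (e i))‖ ≤ s) :
    ∃ ζ : ι → R, (∀ i, ‖ζ i‖ ≤ 2 * s) ∧ (∀ i, ζ i * π i = ζ i) ∧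
      ∀ i, A i * (π i - Ai i * (1 - π (e i)) * ζ i) =
        (π (e i) - Ai (e i) * (1 - π (e (e i))) * ζ (e i)) * ζ i := by
  have hc : ∀ i, CauchySeq (fun m => zit e A Ai π m i) := fun i => by
    refine cauchySeq_of_le_geometric (1 / 2) s (by norm_num) (fun m => ?_)
    rw [dist_comm, dist_eq_norm]
    exact zit_step hκ hs hks hπn hT hU m i
  choose ζ hζ using fun i => cauchySeq_tendsto_of_complete (hc i)
  have hfix : ∀ i, ζ i = A i * π i +
      Ai (e i) * (1 - π (e (e i))) * ζ (e i) * π (e i) * ζ i := by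
    intro i
    have h1 : Tendsto (fun m => zit e A Ai π (m + 1) i) atTop (𝓝 (ζ i)) :=
      (tendsto_add_atTop_iff_nat 1).2 (hζ i)
    have h2 : Tendsto (fun m => A i * π i + Ai (e i) * (1 - π (e (e i))) *
        zit e A Ai π m (e i) * π (e i) * zit e A Ai π m i) atTop
        (𝓝 (A i * π i + Ai (e i) * (1 - π (e (e i))) * ζ (e i) * π (e i) * ζ i)) :=
      ((((hζ (e i)).const_mul _).mul_const _).mul (hζ i)).const_add _
    exact tendsto_nhds_unique h1 h2
  have hζπ : ∀ i, ζ i * π i = ζ i := by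
    intro i
    have h1 : Tendsto (fun m => zit e A Ai π m i * π i) atTop (𝓝 (ζ i * π i)) :=
      (hζ i).mul_const _
    simp only [zit_pi hπ] at h1
    exact tendsto_nhds_unique h1 (hζ i)
  refine ⟨ζ, fun i => ?_, hζπ, fun i => ?_⟩
  · exact le_of_tendsto (hζ i).norm
      (Eventually.of_forall fun m => zit_norm hκ hs hks hπn hT hU m i)
  · have h1 := hfix i
    have h2 : A i * (π i - Ai i * (1 - π (e i)) * ζ i) =
        A i * π i - (A i * Ai i) * (1 - π (e i)) * ζ i := by noncomm_ring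
    rw [h2, hAAi, one_mul]
    have h3 : A i * π i = ζ i - Ai (e i) * (1 - π (e (e i))) * ζ (e i) * π (e i) * ζ i := by
      exact eq_sub_of_add_eq h1.symm
    rw [h3, mul_assoc _ (ζ (e i)) (π (e i)), hζπ]
    noncomm_ring

/-- **Invariant idempotents.** -/
theorem invProj [CompleteSpace R] (hone : ‖(1 : R)‖ ≤ 1) (e : Equiv.Perm ι) (hκ : 1 ≤ κ)
    (hs : 0 ≤ s) (hks : 16 * κ * s ≤ 1)
    (hAAi : ∀ i, A i * Ai i = 1) (hAiA : ∀ i, Ai i * A i = 1)
    (hπ : ∀ i, π i * π i = π i) (hπn : ∀ i, ‖π i‖ ≤ κ) (hπn' : ∀ i, ‖1 - π i‖ ≤ κ)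
    (hT : ∀ i, ‖A i * π i‖ ≤ s) (hU : ∀ i, ‖Ai i * (1 - π (e i))‖ ≤ s) :
    ∃ Pr : ι → R, (∀ i, Pr i * Pr i = Pr i) ∧ (∀ i, ‖Pr i‖ ≤ 4 * κ) ∧
      (∀ i, Pr (e i) * (A i * Pr i) = A i * Pr i) ∧
      (∀ i, (1 - Pr i) * (Ai i * (1 - Pr (e i))) = Ai i * (1 - Pr (e i))) ∧
      (∀ i, ‖A i * Pr i‖ ≤ 1 / 2) ∧ ∀ i, ‖Ai i * (1 - Pr (e i))‖ ≤ 1 / 2 := by
  have hs1 : s ≤ 1 / 16 := by nlinarith
  obtain ⟨ζ, hζ, hζπ, hζA⟩ := graph (e := e) (A := A) (Ai := Ai) hκ hs hks hAAi hπ hπn hT hU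
  obtain ⟨ξ, hξ, hξπ, hξA⟩ := graph (e := e.symm) (A := fun i => Ai (e.symm i))
    (Ai := fun i => A (e.symm i)) (π := fun i => 1 - π i) hκ hs hks
    (fun i => hAiA _) (fun i => by
      show (1 - π i) * (1 - π i) = 1 - π i
      have : (1 - π i) * (1 - π i) = 1 - π i - π i + π i * π i := by noncomm_ring
      rw [this, hπ]; abel) hπn'
    (fun i => by
      have := hU (e.symm i)
      rw [Equiv.apply_symm_apply] at this
      exact this)
    (fun i => by
      show ‖A (e.symm i) * (1 - (1 - π (e.symm i)))‖ ≤ s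
      rw [sub_sub_cancel]
      exact hT _)
  simp only [sub_sub_cancel] at hξA
  set Γ : ι → R := fun i => π i - Ai i * (1 - π (e i)) * ζ i with hΓ
  set Δ : ι → R := fun i => (1 - π i) - A (e.symm i) * π (e.symm i) * ξ i with hΔ
  have hΓA : ∀ i, A i * Γ i = Γ (e i) * ζ i := fun i => hζA i
  have hΔA : ∀ i, Ai i * Δ (e i) = Δ i * ξ (e i) := by
    intro i
    have h := hξA (e i)
    simp only [Equiv.symm_apply_apply] at h
    simp only [hΔ, Equiv.symm_apply_apply]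
    exact h
  have hΓπ : ∀ i, Γ i * π i = Γ i := by
    intro i
    simp only [hΓ]
    rw [sub_mul, hπ, mul_assoc, hζπ]
  have hΔπ : ∀ i, Δ i * (1 - π i) = Δ i := by
    intro i
    simp only [hΔ]
    rw [sub_mul, mul_assoc _ (ξ i), hξπ]
    congr 1
    have : (1 - π i) * (1 - π i) = 1 - π i - π i + π i * π i := by noncomm_ring
    rw [this, hπ]; abel
  have hΔπ0 : ∀ i, Δ i * π i = 0 := by
    intro i
    rw [← hΔπ i, mul_assoc]
    have : (1 - π i) * π i = π i - π i * π i := by noncomm_ring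
    rw [this, hπ, sub_self, mul_zero]
  have hΓπ0 : ∀ i, Γ i * (1 - π i) = 0 := by
    intro i
    rw [mul_sub, mul_one, hΓπ, sub_self]
  set t : ι → R := fun i => Ai i * (1 - π (e i)) * ζ i + A (e.symm i) * π (e.symm i) * ξ i with ht
  have htn : ∀ i, ‖t i‖ ≤ 1 / 4 := by
    intro i
    have h1 : ‖Ai i * (1 - π (e i)) * ζ i‖ ≤ s * (2 * s) :=
      (norm_mul_le _ _).trans (mul_le_mul (hU i) (hζ i) (norm_nonneg _) hs)
    have h2 : ‖A (e.symm i) * π (e.symm i) * ξ i‖ ≤ s * (2 * s) :=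
      (norm_mul_le _ _).trans (mul_le_mul (hT _) (hξ i) (norm_nonneg _) hs)
    have h3 := norm_add_le (Ai i * (1 - π (e i)) * ζ i) (A (e.symm i) * π (e.symm i) * ξ i)
    have h4 : s * (2 * s) ≤ 1 / 8 := by nlinarith
    show ‖Ai i * (1 - π (e i)) * ζ i + A (e.symm i) * π (e.symm i) * ξ i‖ ≤ 1 / 4
    linarith
  have hV : ∀ i, Γ i + Δ i = 1 - t i := by
    intro i
    simp only [hΓ, hΔ, ht]
    abel
  have hu : ∀ i, ∃ W : R, (Γ i + Δ i) * W = 1 ∧ W * (Γ i + Δ i) = 1 ∧ ‖W‖ ≤ 2 := by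
    intro i
    have h1 : ‖t i‖ < 1 := lt_of_le_of_lt (htn i) (by norm_num)
    have h2 : (↑(Units.oneSub (t i) h1) : R) = 1 - t i := Units.val_oneSub _ _
    refine ⟨↑(Units.oneSub (t i) h1)⁻¹, ?_, ?_, ?_⟩
    · rw [hV, ← h2]; exact Units.mul_inv _
    · rw [hV, ← h2]; exact Units.inv_mul _
    · have h3 : (1 - t i) * (↑(Units.oneSub (t i) h1)⁻¹ : R) = 1 := by
        rw [← h2]; exact Units.mul_inv _
      set W : R := ↑(Units.oneSub (t i) h1)⁻¹ with hW
      have h4 : W = 1 + t i * W := by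
        rw [sub_mul, one_mul] at h3
        exact (sub_eq_iff_eq_add.1 h3)
      have h5 : ‖W‖ ≤ 1 + 1 / 4 * ‖W‖ := by
        calc ‖W‖ = ‖1 + t i * W‖ := by rw [← h4]
          _ ≤ ‖(1 : R)‖ + ‖t i * W‖ := norm_add_le _ _
          _ ≤ 1 + 1 / 4 * ‖W‖ := by
            refine add_le_add hone ((norm_mul_le _ _).trans ?_)
            exact mul_le_mul_of_nonneg_right (htn i) (norm_nonneg _)
      linarith
  choose W hW1 hW2 hWn using hu
  have hVπ : ∀ i, (Γ i + Δ i) * π i = Γ i := by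
    intro i
    rw [add_mul, hΓπ, hΔπ0, add_zero]
  have hVQ : ∀ i, (Γ i + Δ i) * (1 - π i) = Δ i := by
    intro i
    rw [add_mul, hΓπ0, hΔπ, zero_add]
  have hΓn : ∀ i, ‖Γ i‖ ≤ 2 * κ := by
    intro i
    have h1 : ‖Ai i * (1 - π (e i)) * ζ i‖ ≤ s * (2 * s) :=
      (norm_mul_le _ _).trans (mul_le_mul (hU i) (hζ i) (norm_nonneg _) hs)
    have h2 := norm_sub_le (π i) (Ai i * (1 - π (e i)) * ζ i)
    have h3 := hπn i
    show ‖π i - Ai i * (1 - π (e i)) * ζ i‖ ≤ 2 * κ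
    nlinarith
  have hΔn : ∀ i, ‖Δ i‖ ≤ 2 * κ := by
    intro i
    have h1 : ‖A (e.symm i) * π (e.symm i) * ξ i‖ ≤ s * (2 * s) :=
      (norm_mul_le _ _).trans (mul_le_mul (hT _) (hξ i) (norm_nonneg _) hs)
    have h2 := norm_sub_le (1 - π i) (A (e.symm i) * π (e.symm i) * ξ i)
    have h3 := hπn' i
    show ‖(1 - π i) - A (e.symm i) * π (e.symm i) * ξ i‖ ≤ 2 * κ
    nlinarith
  have hsub : ∀ i, 1 - Γ i * W i = Δ i * W i := by
    intro i
    rw [sub_eq_iff_eq_add, ← add_mul, add_comm (Δ i), hW1]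
  have hAP : ∀ i, A i * (Γ i * W i) = Γ (e i) * ζ i * W i := by
    intro i
    rw [← mul_assoc, hΓA]
  have hAQ : ∀ i, Ai i * (Δ (e i) * W (e i)) = Δ i * ξ (e i) * W (e i) := by
    intro i
    rw [← mul_assoc, hΔA]
  have hΓWΓ : ∀ i, Γ i * W i * Γ i = Γ i := by
    intro i
    calc Γ i * W i * Γ i = Γ i * W i * ((Γ i + Δ i) * π i) := by rw [hVπ]
      _ = Γ i * (W i * (Γ i + Δ i)) * π i := by noncomm_ring
      _ = Γ i := by rw [hW2, mul_one, hΓπ]
  have hΔWΔ : ∀ i, Δ i * W i * Δ i = Δ i := by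
    intro i
    calc Δ i * W i * Δ i = Δ i * W i * ((Γ i + Δ i) * (1 - π i)) := by rw [hVQ]
      _ = Δ i * (W i * (Γ i + Δ i)) * (1 - π i) := by noncomm_ring
      _ = Δ i := by rw [hW2, mul_one, hΔπ]
  refine ⟨fun i => Γ i * W i, fun i => ?_, fun i => ?_, fun i => ?_, fun i => ?_, fun i => ?_,
    fun i => ?_⟩
  · show Γ i * W i * (Γ i * W i) = Γ i * W i
    rw [← mul_assoc, hΓWΓ]
  · refine (norm_mul_le _ _).trans ?_
    have := mul_le_mul (hΓn i) (hWn i) (norm_nonneg _) (by linarith)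
    linarith
  · show Γ (e i) * W (e i) * (A i * (Γ i * W i)) = A i * (Γ i * W i)
    rw [hAP, ← mul_assoc, ← mul_assoc, hΓWΓ]
  · show (1 - Γ i * W i) * (Ai i * (1 - Γ (e i) * W (e i))) = Ai i * (1 - Γ (e i) * W (e i))
    rw [hsub, hsub, hAQ, ← mul_assoc, ← mul_assoc, hΔWΔ]
  · show ‖A i * (Γ i * W i)‖ ≤ 1 / 2
    rw [hAP]
    have h1 : ‖Γ (e i) * ζ i * W i‖ ≤ 2 * κ * (2 * s) * 2 :=
      (norm_mul_le _ _).trans (mul_le_mul ((norm_mul_le _ _).trans
        (mul_le_mul (hΓn _) (hζ _) (norm_nonneg _) (by linarith))) (hWn _) (norm_nonneg _)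
          (by positivity))
    linarith
  · show ‖Ai i * (1 - Γ (e i) * W (e i))‖ ≤ 1 / 2
    rw [hsub, hAQ]
    have h1 : ‖Δ i * ξ (e i) * W (e i)‖ ≤ 2 * κ * (2 * s) * 2 :=
      (norm_mul_le _ _).trans (mul_le_mul ((norm_mul_le _ _).trans
        (mul_le_mul (hΔn _) (hξ _) (norm_nonneg _) (by linarith))) (hWn _) (norm_nonneg _)
          (by positivity))
    linarith

end GT

end Pool.Agent.KS6_15.HS
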