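import Mathlib

/-!
Square roots in Banach algebras by iteration.
-/

set_option autoImplicit false

open Filter Topology

namespace Pool.Agent.KS6_15.HS

section Sqrt

variable {𝕜 R : Type*} [RCLike 𝕜] [NormedRing R] [NormedAlgebra 𝕜 R]

/-- the iteration for the square root of `1 - z` -/
noncomputable def it (𝕜 : Type*) {R : Type*} [RCLike 𝕜] [NormedRing R] [NormedAlgebra 𝕜 R]
    (z : R) : ℕ → R
  | 0 => 0
  | n + 1 => (1 / 2 : 𝕜) • (z + it 𝕜 z n * it 𝕜 z n)

/-- the scalar iteration -/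
noncomputable def rr : ℕ → ℝ
  | 0 => 0
  | n + 1 => (1 + rr n * rr n) / 2

lemma rr_bounds (n : ℕ) : 0 ≤ rr n ∧ rr n ≤ 1 := by
  induction n with
  | zero => simp [rr]
  | succ n ih =>
    obtain ⟨h0, h1⟩ := ih
    simp only [rr]
    constructor
    · positivity
    · nlinarith

lemma rr_mono (n : ℕ) : rr n ≤ rr (n + 1) := by
  simp only [rr]
  nlinarith [sq_nonneg (rr n - 1)]

lemma norm_half : ‖(1 / 2 : 𝕜)‖ = 1 / 2 := by
  simp

lemma it_norm (z : R) (hz : ‖z‖ ≤ 1) (n : ℕ) : ‖it 𝕜 z n‖ ≤ rr n := by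
  induction n with
  | zero => simp [it, rr]
  | succ n ih =>
    simp only [it, rr]
    rw [norm_smul, norm_half]
    have h1 : ‖z + it 𝕜 z n * it 𝕜 z n‖ ≤ 1 + rr n * rr n := by
      refine (norm_add_le _ _).trans (add_le_add hz ?_)
      exact (norm_mul_le _ _).trans (mul_le_mul ih ih (norm_nonneg _) (rr_bounds n).1)
    linarith

lemma it_comm_z (z : R) (n : ℕ) : it 𝕜 z n * z = z * it 𝕜 z n := by
  induction n with
  | zero => simp [it]
  | succ n ih =>
    simp only [it]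
    rw [smul_mul_assoc, mul_smul_comm]
    congr 1
    rw [add_mul, mul_add, mul_assoc, ih, ← mul_assoc, ih, mul_assoc]

lemma it_comm (z : R) (m n : ℕ) : it 𝕜 z n * it 𝕜 z m = it 𝕜 z m * it 𝕜 z n := by
  induction n with
  | zero => simp [it]
  | succ n ih =>
    rw [show it 𝕜 z (n + 1) = (1 / 2 : 𝕜) • (z + it 𝕜 z n * it 𝕜 z n) from rfl]
    rw [smul_mul_assoc, mul_smul_comm]
    congr 1
    rw [add_mul, mul_add, it_comm_z, mul_assoc, ih, ← mul_assoc, ih, mul_assoc]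

lemma it_step (z : R) (hz : ‖z‖ ≤ 1) (n : ℕ) :
    ‖it 𝕜 z (n + 1) - it 𝕜 z n‖ ≤ rr (n + 1) - rr n := by
  induction n with
  | zero =>
    simp only [it, rr]
    simp only [mul_zero, add_zero, sub_zero]
    rw [norm_smul, norm_half]
    linarith
  | succ n ih =>
    have e1 : it 𝕜 z (n + 1 + 1) - it 𝕜 z (n + 1) =
        (1 / 2 : 𝕜) • ((it 𝕜 z (n + 1) - it 𝕜 z n) * (it 𝕜 z (n + 1) + it 𝕜 z n)) := by
      have h1 : it 𝕜 z (n + 1 + 1) = (1 / 2 : 𝕜) • (z + it 𝕜 z (n + 1) * it 𝕜 z (n + 1)) := rfl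
      have h2 : it 𝕜 z (n + 1) = (1 / 2 : 𝕜) • (z + it 𝕜 z n * it 𝕜 z n) := rfl
      rw [h1]
      nth_rw 3 [h2]
      rw [← smul_sub]
      congr 1
      rw [sub_mul, mul_add, mul_add, it_comm z (n + 1) n]
      abel
    have e2 : rr (n + 1 + 1) - rr (n + 1) =
        1 / 2 * ((rr (n + 1) - rr n) * (rr (n + 1) + rr n)) := by
      have h1 : rr (n + 1 + 1) = (1 + rr (n + 1) * rr (n + 1)) / 2 := rfl
      have h2 : rr (n + 1) = (1 + rr n * rr n) / 2 := rfl
      rw [h1]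
      nth_rw 3 [h2]
      ring
    rw [e1, e2, norm_smul, norm_half]
    refine mul_le_mul_of_nonneg_left ?_ (by norm_num)
    refine (norm_mul_le _ _).trans (mul_le_mul ih ?_ (norm_nonneg _) ?_)
    · exact (norm_add_le _ _).trans (add_le_add (it_norm z hz _) (it_norm z hz _))
    · linarith [rr_mono n]

lemma it_cauchy (z : R) (hz : ‖z‖ ≤ 1) : CauchySeq (it 𝕜 z) := by
  refine cauchySeq_of_dist_le_of_summable (fun n => rr (n + 1) - rr n) (fun n => ?_) ?_
  · rw [dist_comm, dist_eq_norm]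
    exact it_step z hz n
  · refine summable_of_sum_range_le (c := 1) (fun n => by linarith [rr_mono n]) (fun n => ?_)
    rw [Finset.sum_range_sub]
    have := (rr_bounds n).2
    simp only [rr, sub_zero]
    exact this

/-- **Square root lemma.** -/
theorem exists_root [CompleteSpace R] (z : R) (hz : ‖z‖ ≤ 1) :
    ∃ y : R, y = (1 / 2 : 𝕜) • (z + y * y) ∧
      ∀ p : R → Prop, IsClosed {t | p t} → p 0 → (∀ t, p t → p ((1 / 2 : 𝕜) • (z + t * t))) →
        p y := by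
  obtain ⟨y, hy⟩ := cauchySeq_tendsto_of_complete (it_cauchy (𝕜 := 𝕜) z hz)
  refine ⟨y, ?_, ?_⟩
  · have h1 : Tendsto (fun n => it 𝕜 z (n + 1)) atTop (𝓝 y) := (tendsto_add_atTop_iff_nat 1).2 hy
    have h2 : Tendsto (fun n => (1 / 2 : 𝕜) • (z + it 𝕜 z n * it 𝕜 z n)) atTop
        (𝓝 ((1 / 2 : 𝕜) • (z + y * y))) := ((hy.mul hy).const_add z).const_smul _
    exact tendsto_nhds_unique h1 h2
  · intro p hp h0 hs
    have h1 : ∀ n, p (it 𝕜 z n) := by
      intro n
      induction n with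
      | zero => exact h0
      | succ n ih => exact hs _ ih
    exact hp.mem_of_tendsto hy (Eventually.of_forall h1)

end Sqrt

end Pool.Agent.KS6_15.HS
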