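import Mathlib
import Pool.Agent.KS6_15.HS.Sqrt

/-!
Splitting a Hilbert space along two operators.
-/

set_option autoImplicit false

open Filter Topology RCLike

namespace Pool.Agent.KS6_15.HS

section Hilb

variable {𝕜 H : Type*} [RCLike 𝕜] [NormedAddCommGroup H] [InnerProductSpace 𝕜 H]

/-- symmetric bounded operators -/
def Sy (g : H →L[𝕜] H) : Prop := ∀ x y : H, inner 𝕜 (g x) y = inner 𝕜 x (g y)

lemma Sy.add {g h : H →L[𝕜] H} (hg : Sy g) (hh : Sy h) : Sy (g + h) := by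
  intro x y
  rw [_root_.add_apply, _root_.add_apply, inner_add_left,
    inner_add_right, hg, hh]

lemma Sy.sub {g h : H →L[𝕜] H} (hg : Sy g) (hh : Sy h) : Sy (g - h) := by
  intro x y
  rw [_root_.sub_apply, _root_.sub_apply, inner_sub_left,
    inner_sub_right, hg, hh]

lemma Sy.one : Sy (1 : H →L[𝕜] H) := fun _ _ => rfl

lemma Sy.zero : Sy (0 : H →L[𝕜] H) := fun x y => by simp

lemma Sy.half {g : H →L[𝕜] H} (hg : Sy g) : Sy ((1 / 2 : 𝕜) • g) := by
  intro x y
  rw [_root_.smul_apply, _root_.smul_apply, inner_smul_left,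
    inner_smul_right, hg]
  congr 1
  simp [map_ofNat]

lemma Sy.mul_self {g : H →L[𝕜] H} (hg : Sy g) : Sy (g * g) := by
  intro x y
  show inner 𝕜 (g (g x)) y = inner 𝕜 x (g (g y))
  rw [hg, hg]

lemma Sy.conj {g v : H →L[𝕜] H} (hg : Sy g) (hv : Sy v) : Sy (v * g * v) := by
  intro x y
  show inner 𝕜 (v (g (v x))) y = inner 𝕜 x (v (g (v y)))
  rw [hv, hg, hv]

variable [CompleteSpace H]

/-- inverse of a symmetric operator which is at least one -/
theorem exists_inv (a : H →L[𝕜] H) (ha : Sy a) (h1 : ∀ x, ‖x‖ ^ 2 ≤ re (inner 𝕜 (a x) x)) :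
    ∃ g : H →L[𝕜] H, a * g = 1 ∧ g * a = 1 ∧ Sy g ∧ (∀ x, 0 ≤ re (inner 𝕜 (g x) x)) ∧
      ‖1 - g‖ ≤ 1 := by
  obtain ⟨u, hu⟩ := ContinuousLinearMap.isUnit_of_forall_le_norm_inner_map a (c := 1) one_pos
    (fun x => by
      rw [NNReal.coe_one, mul_one]
      exact (h1 x).trans (re_le_norm _))
  have e1 : a * (↑u⁻¹ : H →L[𝕜] H) = 1 := by rw [← hu]; exact u.mul_inv
  have e2 : (↑u⁻¹ : H →L[𝕜] H) * a = 1 := by rw [← hu]; exact u.inv_mul
  set g : H →L[𝕜] H := ↑u⁻¹ with hg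
  have e3 : ∀ x, a (g x) = x := fun x => congrArg (fun f : H →L[𝕜] H => f x) e1
  refine ⟨g, e1, e2, ?_, ?_, ?_⟩
  · intro x y
    calc inner 𝕜 (g x) y = inner 𝕜 (g x) (a (g y)) := by rw [e3]
      _ = inner 𝕜 (a (g x)) (g y) := (ha _ _).symm
      _ = inner 𝕜 x (g y) := by rw [e3]
  · intro x
    have h2 := h1 (g x)
    rw [e3, ← inner_re_symm] at h2
    exact le_trans (by positivity) h2
  · refine ContinuousLinearMap.opNorm_le_bound _ zero_le_one (fun x => ?_)
    have h2 := norm_sub_sq (𝕜 := 𝕜) (a (g x)) (g x)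
    have h3 := h1 (g x)
    rw [one_mul]
    have h4 : (1 - g) x = a (g x) - g x := by
      rw [_root_.sub_apply, one_apply_eq_self, e3]
    rw [h4]
    rw [e3] at h2 h3 ⊢
    have h5 : ‖x - g x‖ ^ 2 ≤ ‖x‖ ^ 2 := by
      rw [h2]
      nlinarith [sq_nonneg ‖g x‖]
    exact abs_le_of_sq_le_sq' h5 (norm_nonneg _) |>.2

/-- square roots of symmetric operators near one -/
theorem exists_sqrt (t : H →L[𝕜] H) (ht : Sy t) (h : ‖1 - t‖ ≤ 1) :
    ∃ v : H →L[𝕜] H, v * v = t ∧ Sy v ∧ (∀ x, 0 ≤ re (inner 𝕜 (v x) x)) ∧ ‖v‖ ≤ 2 ∧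
      ∀ s : H →L[𝕜] H, s * t = t * s → s * v = v * s := by
  obtain ⟨y, hy, hp⟩ := exists_root (𝕜 := 𝕜) (1 - t) h
  have hn : ‖y‖ ≤ 1 := by
    refine hp (fun t => ‖t‖ ≤ 1) (isClosed_le continuous_norm continuous_const) (by simp) ?_
    intro s hs
    rw [norm_smul, norm_half]
    have h1 : ‖(1 - t) + s * s‖ ≤ 1 + 1 := by
      refine (norm_add_le _ _).trans (add_le_add h ?_)
      refine (norm_mul_le _ _).trans ?_
      nlinarith [norm_nonneg s]
    linarith
  have hsy : Sy y := by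
    refine hp Sy ?_ Sy.zero ?_
    · have h1 : {t : H →L[𝕜] H | Sy t} =
          ⋂ x : H, ⋂ y : H, {t | inner 𝕜 (t x) y = inner 𝕜 x (t y)} := by
        ext s
        simp [Sy]
      rw [h1]
      refine isClosed_iInter fun x => isClosed_iInter fun z => isClosed_eq ?_ ?_
      · exact (ContinuousLinearMap.apply 𝕜 H x).continuous.inner continuous_const
      · exact continuous_const.inner (ContinuousLinearMap.apply 𝕜 H z).continuous
    · intro s hs
      exact ((Sy.one.sub ht).add hs.mul_self).half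
  have h2y : y + y = (1 - t) + y * y := by
    have h1 : (2 : 𝕜) • y = (2 : 𝕜) • ((1 / 2 : 𝕜) • ((1 - t) + y * y)) := by rw [← hy]
    rw [smul_smul, show (2 : 𝕜) * (1 / 2) = 1 by norm_num, one_smul, two_smul] at h1
    exact h1
  refine ⟨1 - y, ?_, Sy.one.sub hsy, ?_, ?_, ?_⟩
  · have h1 : (1 - y) * (1 - y) = 1 - (y + y) + y * y := by noncomm_ring
    rw [h1, h2y]
    abel
  · intro x
    rw [_root_.sub_apply, one_apply_eq_self, inner_sub_left, map_sub,
      inner_self_eq_norm_sq]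
    have h1 : re (inner 𝕜 (y x) x) ≤ ‖x‖ ^ 2 := by
      refine (re_le_norm _).trans ((norm_inner_le_norm _ _).trans ?_)
      have h2 : ‖y x‖ ≤ ‖x‖ := by
        have := y.le_opNorm x
        nlinarith [norm_nonneg x]
      nlinarith [norm_nonneg x]
    linarith
  · refine (norm_sub_le _ _).trans ?_
    have h1 : ‖(1 : H →L[𝕜] H)‖ ≤ 1 := ContinuousLinearMap.norm_id_le
    linarith
  · intro s hs
    have h1 : s * y = y * s := by
      refine hp (fun t => s * t = t * s)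
        (isClosed_eq (continuous_const.mul continuous_id) (continuous_id.mul continuous_const))
        (by simp) ?_
      intro r hr
      show s * ((1 / 2 : 𝕜) • ((1 - t) + r * r)) = ((1 / 2 : 𝕜) • ((1 - t) + r * r)) * s
      rw [mul_smul_comm, smul_mul_assoc]
      congr 1
      rw [mul_add, add_mul, mul_sub, sub_mul, hs, mul_one, one_mul, ← mul_assoc, hr, mul_assoc, hr,
        mul_assoc]
    rw [mul_sub, sub_mul, h1, mul_one, one_mul]

end Hilb

end Pool.Agent.KS6_15.HS
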