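import Mathlib
import Pool.Agent.KS6_15.HS.Split

/-!
Splitting a Hilbert space along two operators: the projection.
-/

set_option autoImplicit false

open Filter Topology RCLike

namespace Pool.Agent.KS6_15.HS

section Hilb

variable {𝕜 H : Type*} [RCLike 𝕜] [NormedAddCommGroup H] [InnerProductSpace 𝕜 H]

lemma mul_app (f g : H →L[𝕜] H) (x : H) : (f * g) x = f (g x) := rfl

lemma comm1 {R : Type*} [Ring R] {K G : R} (h : G * K = K * G) :
    (K - G) * (1 + G) = (1 + G) * (K - G) := by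
  have e1 : (K - G) * (1 + G) = K - G + K * G - G * G := by noncomm_ring
  have e2 : (1 + G) * (K - G) = K - G + G * K - G * G := by noncomm_ring
  rw [e1, e2, h]

lemma comm2 {R : Type*} [Ring R] {K G : R} (h : G * K = K * G) :
    (K + G) * (1 - G) = (1 - G) * (K + G) := by
  have e1 : (K + G) * (1 - G) = K + G - K * G - G * G := by noncomm_ring
  have e2 : (1 - G) * (K + G) = K + G - G * K - G * G := by noncomm_ring
  rw [e1, e2, h]

/-- one half of the estimate -/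
lemma half_est {a g v vi g1 L A : H →L[𝕜] H} {ε : ℝ} (hε : 0 < ε)
    (ha : ∀ x, ‖A x‖ ^ 2 ≤ ε ^ 2 * re (inner 𝕜 (a x) x))
    (hag : a * g = 1) (hga : g * a = 1) (hv : Sy v) (hv1 : v * vi = 1) (hv2 : vi * v = 1)
    (hg1 : g1 = (1 / 2 : 𝕜) • (vi * g * vi)) (hL : L * g1 = g1 * L)
    (hlow : ∀ z, L z = 0 → ‖z‖ ^ 2 / 2 ≤ re (inner 𝕜 (g1 z) z)) (u : H) (hu : L u = 0) :
    ‖A (v u)‖ ≤ ε * ‖u‖ := by
  set k : H →L[𝕜] H := (2 : 𝕜) • (v * a * v) with hk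
  have e1 : g1 * k = 1 := by
    rw [hg1, hk, smul_mul_assoc, mul_smul_comm, smul_smul,
      show (1 / 2 : 𝕜) * 2 = 1 by norm_num, one_smul]
    calc vi * g * vi * (v * a * v) = vi * g * (vi * v) * a * v := by noncomm_ring
      _ = vi * (g * a) * v := by rw [hv2]; noncomm_ring
      _ = 1 := by rw [hga, mul_one, hv2]
  have e2 : k * g1 = 1 := by
    rw [hg1, hk, smul_mul_assoc, mul_smul_comm, smul_smul,
      show (2 : 𝕜) * (1 / 2) = 1 by norm_num, one_smul]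
    calc v * a * v * (vi * g * vi) = v * a * (v * vi) * g * vi := by noncomm_ring
      _ = v * (a * g) * vi := by rw [hv1]; noncomm_ring
      _ = 1 := by rw [hag, mul_one, hv1]
  have e3 : g1 (k u) = u := congrArg (fun f : H →L[𝕜] H => f u) e1
  have e4 : L (k u) = 0 := by
    have h1 : L = k * L * g1 := by
      rw [mul_assoc, hL, ← mul_assoc, e2, one_mul]
    have h2 : L (k u) = k (L (g1 (k u))) := by
      have h3 := congrArg (fun f : H →L[𝕜] H => f (k u)) h1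
      exact h3
    rw [h2, e3, hu, map_zero]
  have h5 := hlow _ e4
  rw [e3] at h5
  have h6 : re (inner 𝕜 u (k u)) ≤ ‖u‖ * ‖k u‖ := (re_le_norm _).trans (norm_inner_le_norm _ _)
  have h7 : ‖k u‖ ≤ 2 * ‖u‖ := by
    by_contra hcon
    push Not at hcon
    nlinarith [norm_nonneg u, norm_nonneg (k u)]
  have h8 : re (inner 𝕜 (a (v u)) (v u)) ≤ ‖u‖ ^ 2 := by
    have h9 : inner 𝕜 (k u) u = 2 * inner 𝕜 (a (v u)) (v u) := by
      have h10 : k u = (2 : 𝕜) • v (a (v u)) := rfl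
      rw [h10, inner_smul_left, hv]
      congr 1
      exact map_ofNat (starRingEnd 𝕜) 2
    have h11 : re (inner 𝕜 (k u) u) = 2 * re (inner 𝕜 (a (v u)) (v u)) := by
      rw [h9, two_mul, map_add, two_mul]
    rw [← inner_re_symm] at h6
    nlinarith [norm_nonneg u]
  have h12 := ha (v u)
  have h13 : ‖A (v u)‖ ^ 2 ≤ (ε * ‖u‖) ^ 2 := by
    rw [mul_pow]
    exact h12.trans (mul_le_mul_of_nonneg_left h8 (by positivity))
  exact (abs_le_of_sq_le_sq' h13 (by positivity)).2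

variable [CompleteSpace H]

lemma adj_est (A : H →L[𝕜] H) {ε : ℝ} (_hε : 0 < ε) :
    ∃ a : H →L[𝕜] H, Sy a ∧
      ∀ x, re (inner 𝕜 (a x) x) = ‖x‖ ^ 2 + ε⁻¹ ^ 2 * ‖A x‖ ^ 2 := by
  refine ⟨1 + ((ε⁻¹ ^ 2 : ℝ) : 𝕜) • (ContinuousLinearMap.adjoint A * A), ?_, ?_⟩
  · intro x y
    show inner 𝕜 (x + ((ε⁻¹ ^ 2 : ℝ) : 𝕜) • (ContinuousLinearMap.adjoint A (A x))) y =
      inner 𝕜 x (y + ((ε⁻¹ ^ 2 : ℝ) : 𝕜) • (ContinuousLinearMap.adjoint A (A y)))
    rw [inner_add_left, inner_add_right, inner_smul_left, inner_smul_right,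
      ContinuousLinearMap.adjoint_inner_left, ContinuousLinearMap.adjoint_inner_right]
    simp
  · intro x
    show re (inner 𝕜 (x + ((ε⁻¹ ^ 2 : ℝ) : 𝕜) • (ContinuousLinearMap.adjoint A (A x))) x) = _
    rw [inner_add_left, inner_smul_left, ContinuousLinearMap.adjoint_inner_left, conj_ofReal,
      map_add, re_ofReal_mul, inner_self_eq_norm_sq, inner_self_eq_norm_sq]

/-- **Splitting lemma.** -/
theorem splitting {C : ℝ} (hC : 0 ≤ C) (A B : H →L[𝕜] H) {ε : ℝ} (hε : 0 < ε)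
    (h : ∀ x : H, ∃ p q : H, p + q = x ∧ ‖p‖ ≤ C * ‖x‖ ∧ ‖q‖ ≤ C * ‖x‖ ∧ ‖A p‖ ≤ ε * ‖x‖ ∧
      ‖B q‖ ≤ ε * ‖x‖) :
    ∃ π : H →L[𝕜] H, π * π = π ∧ ‖π‖ ≤ 4 * (C + 1) ∧ ‖1 - π‖ ≤ 4 * (C + 1) ∧
      ‖A * π‖ ≤ 2 * (C + 1) * ε ∧ ‖B * (1 - π)‖ ≤ 2 * (C + 1) * ε := by
  obtain ⟨a, ha, ha2⟩ := adj_est A hε
  obtain ⟨b, hb, hb2⟩ := adj_est B hε
  have hε2 : ε ^ 2 * ε⁻¹ ^ 2 = 1 := by
    field_simp
  obtain ⟨g, hag, hga, hg, hgp, hgn⟩ := exists_inv a ha (fun x => by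
    rw [ha2]; nlinarith [sq_nonneg (ε⁻¹ * ‖A x‖)])
  obtain ⟨k, hbk, hkb, hk, hkp, hkn⟩ := exists_inv b hb (fun x => by
    rw [hb2]; nlinarith [sq_nonneg (ε⁻¹ * ‖B x‖)])
  set D : ℝ := C ^ 2 + 1 with hD
  have hD0 : 0 < D := by positivity
  -- lower bound for g + k
  have key : ∀ (a' g' : H →L[𝕜] H), Sy a' → a' * g' = 1 → (∀ x, 0 ≤ re (inner 𝕜 (a' x) x)) →
      ∀ x p : H, re (inner 𝕜 (a' p) p) ≤ D * ‖x‖ ^ 2 →
      2 * (1 / (2 * D)) * re (inner 𝕜 x p) ≤ re (inner 𝕜 (g' x) x) +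
        (1 / (2 * D)) ^ 2 * (D * ‖x‖ ^ 2) := by
    intro a' g' hs h1 hpos x p hp
    have h2 := hpos (g' x - ((1 / (2 * D) : ℝ) : 𝕜) • p)
    have e1 : a' (g' x) = x := congrArg (fun f : H →L[𝕜] H => f x) h1
    rw [map_sub, map_smul, inner_sub_left, inner_sub_right, inner_sub_right, e1,
      inner_smul_left, inner_smul_left, inner_smul_right, inner_smul_right, conj_ofReal,
      hs p (g' x), e1] at h2
    simp only [map_sub, re_ofReal_mul] at h2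
    rw [inner_re_symm (𝕜 := 𝕜) p x, inner_re_symm (𝕜 := 𝕜) x (g' x)] at h2
    have h3 : (1 / (2 * D)) ^ 2 * re (inner 𝕜 (a' p) p) ≤ (1 / (2 * D)) ^ 2 * (D * ‖x‖ ^ 2) :=
      mul_le_mul_of_nonneg_left hp (by positivity)
    nlinarith
  have hlow : ∀ x, 1 / (2 * D) * ‖x‖ ^ 2 ≤ re (inner 𝕜 ((g + k) x) x) := by
    intro x
    obtain ⟨p, q, hpq, hp, hq, hA, hB⟩ := h x
    have h1 := key a g ha hag (fun x => by rw [ha2]; positivity) x p (by
      rw [ha2]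
      have h2 : ‖p‖ ^ 2 ≤ C ^ 2 * ‖x‖ ^ 2 := by
        rw [← mul_pow]; exact pow_le_pow_left₀ (norm_nonneg _) hp 2
      have h3 : ε⁻¹ ^ 2 * ‖A p‖ ^ 2 ≤ ‖x‖ ^ 2 := by
        have h4 : ‖A p‖ ^ 2 ≤ ε ^ 2 * ‖x‖ ^ 2 := by
          rw [← mul_pow]; exact pow_le_pow_left₀ (norm_nonneg _) hA 2
        calc ε⁻¹ ^ 2 * ‖A p‖ ^ 2 ≤ ε⁻¹ ^ 2 * (ε ^ 2 * ‖x‖ ^ 2) :=
              mul_le_mul_of_nonneg_left h4 (by positivity)
          _ = (ε ^ 2 * ε⁻¹ ^ 2) * ‖x‖ ^ 2 := by ring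
          _ = ‖x‖ ^ 2 := by rw [hε2, one_mul]
      rw [hD]; linarith)
    have h2 := key b k hb hbk (fun x => by rw [hb2]; positivity) x q (by
      rw [hb2]
      have h2 : ‖q‖ ^ 2 ≤ C ^ 2 * ‖x‖ ^ 2 := by
        rw [← mul_pow]; exact pow_le_pow_left₀ (norm_nonneg _) hq 2
      have h3 : ε⁻¹ ^ 2 * ‖B q‖ ^ 2 ≤ ‖x‖ ^ 2 := by
        have h4 : ‖B q‖ ^ 2 ≤ ε ^ 2 * ‖x‖ ^ 2 := by
          rw [← mul_pow]; exact pow_le_pow_left₀ (norm_nonneg _) hB 2
        calc ε⁻¹ ^ 2 * ‖B q‖ ^ 2 ≤ ε⁻¹ ^ 2 * (ε ^ 2 * ‖x‖ ^ 2) :=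
              mul_le_mul_of_nonneg_left h4 (by positivity)
          _ = (ε ^ 2 * ε⁻¹ ^ 2) * ‖x‖ ^ 2 := by ring
          _ = ‖x‖ ^ 2 := by rw [hε2, one_mul]
      rw [hD]; linarith)
    have h3 : re (inner 𝕜 x p) + re (inner 𝕜 x q) = ‖x‖ ^ 2 := by
      rw [← map_add, ← inner_add_right, hpq, inner_self_eq_norm_sq]
    have h4 : re (inner 𝕜 ((g + k) x) x) = re (inner 𝕜 (g x) x) + re (inner 𝕜 (k x) x) := by
      rw [_root_.add_apply, inner_add_left, map_add]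
    have h5 : (1 / (2 * D)) ^ 2 * (D * ‖x‖ ^ 2) = 1 / 2 * (1 / (2 * D)) * ‖x‖ ^ 2 := by
      field_simp
    rw [h4]
    have h6 : 2 * (1 / (2 * D)) * re (inner 𝕜 x p) + 2 * (1 / (2 * D)) * re (inner 𝕜 x q) =
        2 * (1 / (2 * D)) * ‖x‖ ^ 2 := by rw [← mul_add, h3]
    rw [h5] at h1 h2
    linarith
  -- the square root
  obtain ⟨v, hvv, hv, -, hvn, hvc⟩ := exists_sqrt ((1 / 2 : 𝕜) • (g + k)) (hg.add hk).half (by
    have e : (1 : H →L[𝕜] H) - (1 / 2 : 𝕜) • (g + k) = (1 / 2 : 𝕜) • ((1 - g) + (1 - k)) := by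
      have : (1 : H →L[𝕜] H) = (1 / 2 : 𝕜) • ((1 : H →L[𝕜] H) + 1) := by
        rw [← two_smul 𝕜 (1 : H →L[𝕜] H), smul_smul]; norm_num
      nth_rw 1 [this]
      rw [← smul_sub]
      congr 1
      abel
    rw [e, norm_smul, norm_half]
    have := norm_add_le (1 - g) (1 - k)
    linarith)
  have hvlow : ∀ x, ‖x‖ ≤ 2 * (C + 1) * ‖v x‖ := by
    intro x
    have h1 : ‖v x‖ ^ 2 = 1 / 2 * re (inner 𝕜 ((g + k) x) x) := by
      rw [← inner_self_eq_norm_sq (𝕜 := 𝕜), ← hv (v x) x, ← mul_app, hvv]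
      show re (inner 𝕜 ((1 / 2 : 𝕜) • ((g + k) x)) x) = _
      rw [inner_smul_left]
      have : (starRingEnd 𝕜) (1 / 2 : 𝕜) = ((1 / 2 : ℝ) : 𝕜) := by
        simp [map_ofNat]
      rw [this, re_ofReal_mul]
    have h2 := hlow x
    have h3 : ‖x‖ ^ 2 ≤ 4 * D * ‖v x‖ ^ 2 := by
      rw [h1]
      have h4 : 4 * D * (1 / 2 * (1 / (2 * D) * ‖x‖ ^ 2)) = ‖x‖ ^ 2 := by
        field_simp
        ring
      nlinarith
    have h5 : ‖x‖ ^ 2 ≤ (2 * (C + 1) * ‖v x‖) ^ 2 := by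
      refine h3.trans ?_
      rw [hD]
      nlinarith [sq_nonneg ‖v x‖, mul_nonneg hC (sq_nonneg ‖v x‖)]
    exact (abs_le_of_sq_le_sq' h5 (by positivity)).2
  obtain ⟨u, hu⟩ : IsUnit v := by
    have h1 : IsUnit (v * v) := by
      refine ContinuousLinearMap.isUnit_of_forall_le_norm_inner_map (v * v)
        (c := ⟨1 / (4 * D), by positivity⟩)
        (show (0 : ℝ) < 1 / (4 * D) by positivity) (fun x => ?_)
      have h2 : ‖x‖ ^ 2 ≤ 4 * D * ‖v x‖ ^ 2 := by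
        have h1 : ‖v x‖ ^ 2 = 1 / 2 * re (inner 𝕜 ((g + k) x) x) := by
          rw [← inner_self_eq_norm_sq (𝕜 := 𝕜), ← hv (v x) x, ← mul_app, hvv]
          show re (inner 𝕜 ((1 / 2 : 𝕜) • ((g + k) x)) x) = _
          rw [inner_smul_left]
          have : (starRingEnd 𝕜) (1 / 2 : 𝕜) = ((1 / 2 : ℝ) : 𝕜) := by
            simp [map_ofNat]
          rw [this, re_ofReal_mul]
        have h2 := hlow x
        rw [h1]
        have h4 : 4 * D * (1 / 2 * (1 / (2 * D) * ‖x‖ ^ 2)) = ‖x‖ ^ 2 := by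
          field_simp
          ring
        nlinarith
      have h3 : ‖v x‖ ^ 2 ≤ ‖inner 𝕜 ((v * v) x) x‖ := by
        refine le_trans (le_of_eq ?_) (re_le_norm _)
        rw [mul_app, hv, inner_self_eq_norm_sq]
      refine le_trans ?_ h3
      show ‖x‖ ^ 2 * (1 / (4 * D)) ≤ _
      rw [mul_one_div, div_le_iff₀ (by positivity)]
      linarith
    exact (Commute.refl v).isUnit_mul_iff.1 h1 |>.1
  have hv1 : v * (↑u⁻¹ : H →L[𝕜] H) = 1 := by rw [← hu]; exact u.mul_inv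
  have hv2 : (↑u⁻¹ : H →L[𝕜] H) * v = 1 := by rw [← hu]; exact u.inv_mul
  set vi : H →L[𝕜] H := ↑u⁻¹ with hvi
  have hv1' : ∀ x, v (vi x) = x := fun x => congrArg (fun f : H →L[𝕜] H => f x) hv1
  have hvis : Sy vi := by
    intro x y
    calc inner 𝕜 (vi x) y = inner 𝕜 (vi x) (v (vi y)) := by rw [hv1']
      _ = inner 𝕜 (v (vi x)) (vi y) := (hv _ _).symm
      _ = inner 𝕜 x (vi y) := by rw [hv1']
  have hvin : ‖vi‖ ≤ 2 * (C + 1) := by
    refine ContinuousLinearMap.opNorm_le_bound _ (by positivity) (fun x => ?_)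
    have := hvlow (vi x)
    rwa [hv1'] at this
  -- the normalized operators
  set g1 : H →L[𝕜] H := (1 / 2 : 𝕜) • (vi * g * vi) with hg1
  set k1 : H →L[𝕜] H := (1 / 2 : 𝕜) • (vi * k * vi) with hk1
  have hg1s : Sy g1 := (hg.conj hvis).half
  have hk1s : Sy k1 := (hk.conj hvis).half
  have hsum : g1 + k1 = 1 := by
    rw [hg1, hk1, ← smul_add]
    have e1 : vi * g * vi + vi * k * vi = vi * (g + k) * vi := by noncomm_ring
    rw [e1]
    have e2 : (1 / 2 : 𝕜) • (vi * (g + k) * vi) = vi * ((1 / 2 : 𝕜) • (g + k)) * vi := by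
      rw [mul_smul_comm, smul_mul_assoc]
    rw [e2, ← hvv]
    calc vi * (v * v) * vi = (vi * v) * (v * vi) := by noncomm_ring
      _ = 1 := by rw [hv1, hv2, one_mul]
  have hposconj : ∀ f : H →L[𝕜] H, (∀ x, 0 ≤ re (inner 𝕜 (f x) x)) →
      ∀ x, 0 ≤ re (inner 𝕜 (((1 / 2 : 𝕜) • (vi * f * vi)) x) x) := by
    intro f hf x
    show 0 ≤ re (inner 𝕜 ((1 / 2 : 𝕜) • (vi (f (vi x)))) x)
    rw [inner_smul_left]
    have : (starRingEnd 𝕜) (1 / 2 : 𝕜) = ((1 / 2 : ℝ) : 𝕜) := by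
      simp [map_ofNat]
    rw [this, re_ofReal_mul, hvis]
    have := hf (vi x)
    linarith
  have hg1p := hposconj g hgp
  have hk1p := hposconj k hkp
  set G : H →L[𝕜] H := g1 - k1 with hG
  have hGs : Sy G := hg1s.sub hk1s
  have hk1' : k1 = 1 - g1 := by rw [← hsum]; abel
  have hcomm : g1 * k1 = k1 * g1 := by
    rw [hk1', mul_sub, sub_mul, mul_one, one_mul]
  have hGn : ∀ x, ‖G x‖ ≤ ‖x‖ := by
    intro x
    have h1 : x = g1 x + k1 x := by
      have := congrArg (fun f : H →L[𝕜] H => f x) hsum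
      exact this.symm
    have h2 : ‖G x‖ ^ 2 = ‖g1 x‖ ^ 2 - 2 * re (inner 𝕜 (g1 x) (k1 x)) + ‖k1 x‖ ^ 2 := by
      have := norm_sub_sq (𝕜 := 𝕜) (g1 x) (k1 x)
      exact this
    have h3 : ‖x‖ ^ 2 = ‖g1 x‖ ^ 2 + 2 * re (inner 𝕜 (g1 x) (k1 x)) + ‖k1 x‖ ^ 2 := by
      have := norm_add_sq (𝕜 := 𝕜) (g1 x) (k1 x)
      rw [← h1] at this
      exact this
    have h4 : 0 ≤ re (inner 𝕜 (g1 x) (k1 x)) := by
      have h5 : inner 𝕜 (g1 x) (k1 x) = inner 𝕜 (k1 (g1 x)) x := (hk1s _ _).symm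
      have h6 : inner 𝕜 (k1 (g1 x)) x = inner 𝕜 (k1 (g1 x)) (g1 x) + inner 𝕜 (g1 (k1 x)) (k1 x) := by
        have h7 : g1 (k1 x) = k1 (g1 x) := congrArg (fun f : H →L[𝕜] H => f x) hcomm
        rw [h7, ← inner_add_right, ← h1]
      rw [h5, h6, map_add]
      exact add_nonneg (hk1p _) (hg1p _)
    have h8 : ‖G x‖ ^ 2 ≤ ‖x‖ ^ 2 := by linarith
    exact (abs_le_of_sq_le_sq' h8 (norm_nonneg _)).2
  obtain ⟨K, hKK, hK, hKp, -, hKc⟩ := exists_sqrt (G * G) hGs.mul_self (by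
    refine ContinuousLinearMap.opNorm_le_bound _ zero_le_one (fun x => ?_)
    rw [one_mul]
    have h1 : ((1 : H →L[𝕜] H) - G * G) x = x - G (G x) := rfl
    have h2 := norm_sub_sq (𝕜 := 𝕜) x (G (G x))
    have h3 : inner 𝕜 x (G (G x)) = inner 𝕜 (G x) (G x) := (hGs _ _).symm
    rw [h3, inner_self_eq_norm_sq] at h2
    have h4 := hGn (G x)
    have h5 : ‖G (G x)‖ ^ 2 ≤ ‖G x‖ ^ 2 := pow_le_pow_left₀ (norm_nonneg _) h4 2
    rw [h1]
    have h6 : ‖x - G (G x)‖ ^ 2 ≤ ‖x‖ ^ 2 := by nlinarith [sq_nonneg ‖G x‖]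
    exact (abs_le_of_sq_le_sq' h6 (norm_nonneg _)).2)
  have hKG : G * K = K * G := hKc G (by noncomm_ring)
  set L : H →L[𝕜] H := K - G with hL
  set L' : H →L[𝕜] H := K + G with hL'
  have hLL' : L * L' = 0 := by
    have : L * L' = (K * K - G * G) + (K * G - G * K) := by rw [hL, hL']; noncomm_ring
    rw [this, hKK, hKG, sub_self, sub_self, add_zero]
  have hL's : Sy L' := hK.add hGs
  have hGg : G * g1 = g1 * G := by
    rw [hG, sub_mul, mul_sub, hcomm]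
  have hGk : G * k1 = k1 * G := by
    rw [hG, sub_mul, mul_sub, hcomm]
  have e2g : g1 = (1 / 2 : 𝕜) • (1 + G) := by
    have h1 : (1 : H →L[𝕜] H) + G = (2 : 𝕜) • g1 := by
      rw [hG, ← hsum, two_smul]; abel
    rw [h1, smul_smul]; norm_num
  have e2k : k1 = (1 / 2 : 𝕜) • (1 - G) := by
    have h1 : (1 : H →L[𝕜] H) - G = (2 : 𝕜) • k1 := by
      rw [hG, ← hsum, two_smul]; abel
    rw [h1, smul_smul]; norm_num
  have hLg : L * g1 = g1 * L := by
    rw [e2g, mul_smul_comm, smul_mul_assoc]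
    congr 1
    exact comm1 hKG
  have hL'k : L' * k1 = k1 * L' := by
    rw [e2k, mul_smul_comm, smul_mul_assoc]
    congr 1
    exact comm2 hKG
  have hconjhalf : (starRingEnd 𝕜) (1 / 2 : 𝕜) = ((1 / 2 : ℝ) : 𝕜) := by
    simp [map_ofNat]
  have hlow1 : ∀ z, L z = 0 → ‖z‖ ^ 2 / 2 ≤ re (inner 𝕜 (g1 z) z) := by
    intro z hz
    have h1 : G z = K z := by
      have : K z - G z = 0 := hz
      exact (sub_eq_zero.1 this).symm
    have h2 : g1 z = (1 / 2 : 𝕜) • (z + K z) := by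
      have := congrArg (fun f : H →L[𝕜] H => f z) e2g
      rw [← h1]
      exact this
    rw [h2, inner_smul_left, hconjhalf, re_ofReal_mul, inner_add_left, map_add,
      inner_self_eq_norm_sq]
    have := hKp z
    linarith
  have hlow2 : ∀ z, L' z = 0 → ‖z‖ ^ 2 / 2 ≤ re (inner 𝕜 (k1 z) z) := by
    intro z hz
    have h1 : G z = -K z := by
      have : K z + G z = 0 := hz
      exact eq_neg_of_add_eq_zero_right this
    have h2 : k1 z = (1 / 2 : 𝕜) • (z + K z) := by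
      have := congrArg (fun f : H →L[𝕜] H => f z) e2k
      have h3 : k1 z = (1 / 2 : 𝕜) • (z - G z) := this
      rw [h3, h1, sub_neg_eq_add]
    rw [h2, inner_smul_left, hconjhalf, re_ofReal_mul, inner_add_left, map_add,
      inner_self_eq_norm_sq]
    have := hKp z
    linarith
  have estA : ∀ u, L u = 0 → ‖A (v u)‖ ≤ ε * ‖u‖ := by
    refine half_est hε (a := a) (g := g) (vi := vi) (g1 := g1) (fun x => ?_) hag hga hv hv1 hv2 hg1 hLg hlow1
    rw [ha2, mul_add, ← mul_assoc, hε2, one_mul]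
    have : 0 ≤ ε ^ 2 * ‖x‖ ^ 2 := by positivity
    linarith
  have estB : ∀ u, L' u = 0 → ‖B (v u)‖ ≤ ε * ‖u‖ := by
    refine half_est hε (a := b) (g := k) (vi := vi) (g1 := k1) (fun x => ?_) hbk hkb hv hv1 hv2 hk1 hL'k hlow2
    rw [hb2, mul_add, ← mul_assoc, hε2, one_mul]
    have : 0 ≤ ε ^ 2 * ‖x‖ ^ 2 := by positivity
    linarith
  -- the projection
  set F : Submodule 𝕜 H := LinearMap.ker (L : H →ₗ[𝕜] H) with hF
  have hFc : IsClosed (F : Set H) := L.isClosed_ker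
  have : CompleteSpace F := hFc.completeSpace_coe
  set E : H →L[𝕜] H := F.starProjection with hE
  have hEmem : ∀ x, L (E x) = 0 := fun x => Submodule.starProjection_apply_mem F x
  have hEorth : ∀ x, L' (x - E x) = 0 := by
    intro x
    have h1 : x - E x ∈ Fᗮ := Submodule.sub_starProjection_mem_orthogonal x
    have h2 : ∀ y, inner 𝕜 (L' y) (x - E x) = 0 := by
      intro y
      refine (Submodule.mem_orthogonal _ _).1 h1 _ ?_
      show L (L' y) = 0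
      exact congrArg (fun f : H →L[𝕜] H => f y) hLL'
    have h3 := h2 (L' (x - E x))
    rw [hL's, inner_self_eq_zero] at h3
    have h4 := h2 (x - E x)
    -- use symmetry
    have h5 : inner 𝕜 (L' (x - E x)) (L' (x - E x)) = 0 := by
      rw [← hL's]
      exact h2 (L' (x - E x))
    exact inner_self_eq_zero.1 h5
  have hEE : E * E = E := by
    have := Submodule.isIdempotentElem_starProjection (K := F)
    exact this
  have hEn : ∀ x, ‖E x‖ ≤ ‖x‖ := fun x => Submodule.norm_starProjection_apply_le F x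
  have hEn' : ∀ x, ‖x - E x‖ ≤ ‖x‖ := by
    intro x
    have h1 : inner 𝕜 (x - E x) (E x) = 0 := Submodule.starProjection_inner_eq_zero x (E x)
      (Submodule.starProjection_apply_mem F x)
    have h2 := norm_add_sq (𝕜 := 𝕜) (x - E x) (E x)
    rw [h1, sub_add_cancel] at h2
    simp only [map_zero, mul_zero, add_zero] at h2
    have h3 : ‖x - E x‖ ^ 2 ≤ ‖x‖ ^ 2 := by nlinarith [sq_nonneg ‖E x‖]
    exact (abs_le_of_sq_le_sq' h3 (norm_nonneg _)).2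
  have hone : (1 : H →L[𝕜] H) - v * E * vi = v * (1 - E) * vi := by
    rw [mul_sub, sub_mul, mul_one, hv1]
  have hbound : ∀ x, ‖vi x‖ ≤ 2 * (C + 1) * ‖x‖ := fun x => by
    have h1 := vi.le_opNorm x
    nlinarith [norm_nonneg x]
  have hvb : ∀ x, ‖v x‖ ≤ 2 * ‖x‖ := fun x => by
    have h1 := v.le_opNorm x
    nlinarith [norm_nonneg x]
  refine ⟨v * E * vi, ?_, ?_, ?_, ?_, ?_⟩
  · calc v * E * vi * (v * E * vi) = v * E * (vi * v) * E * vi := by noncomm_ring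
      _ = v * (E * E) * vi := by rw [hv2]; noncomm_ring
      _ = v * E * vi := by rw [hEE]
  · refine ContinuousLinearMap.opNorm_le_bound _ (by positivity) (fun x => ?_)
    show ‖v (E (vi x))‖ ≤ _
    have h1 := hvb (E (vi x))
    have h2 := hEn (vi x)
    have h3 := hbound x
    linarith
  · rw [hone]
    refine ContinuousLinearMap.opNorm_le_bound _ (by positivity) (fun x => ?_)
    show ‖v (vi x - E (vi x))‖ ≤ _
    have h1 := hvb (vi x - E (vi x))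
    have h2 := hEn' (vi x)
    have h3 := hbound x
    linarith
  · refine ContinuousLinearMap.opNorm_le_bound _ (by positivity) (fun x => ?_)
    show ‖A (v (E (vi x)))‖ ≤ _
    have h1 := estA _ (hEmem (vi x))
    have h2 := hEn (vi x)
    have h3 := hbound x
    calc ‖A (v (E (vi x)))‖ ≤ ε * ‖E (vi x)‖ := h1
      _ ≤ ε * (2 * (C + 1) * ‖x‖) := by gcongr; linarith
      _ = _ := by ring
  · rw [hone]
    refine ContinuousLinearMap.opNorm_le_bound _ (by positivity) (fun x => ?_)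
    show ‖B (v (vi x - E (vi x)))‖ ≤ _
    have h1 := estB _ (hEorth (vi x))
    have h2 := hEn' (vi x)
    have h3 := hbound x
    calc ‖B (v (vi x - E (vi x)))‖ ≤ ε * ‖vi x - E (vi x)‖ := h1
      _ ≤ ε * (2 * (C + 1) * ‖x‖) := by gcongr; linarith
      _ = _ := by ring

end Hilb

end Pool.Agent.KS6_15.HS
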