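import Mathlib
import Pool.Agent.KS6_15.HS.Asm
import Pool.Agent.KS6_15.HS.Conv
import Pool.Agent.KS6_15.HS.Split2
import Pool.Agent.KS6_15.HS.Graph

/-!
Shadowing implies generalized hyperbolicity: shift operators with Hilbertian fibres, and powers of
operators of Hilbertian spaces.
-/

set_option autoImplicit false

open Filter Topology Set
open scoped ENNReal

noncomputable section

namespace Pool.Agent.KS6_15.HS

open Pool.Agent.Results.MP_0764b2_an.ShadowingNotGenHyp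

section Mn

variable {𝕜 : Type} [RCLike 𝕜] {X : Type} [NormedAddCommGroup X] [NormedSpace 𝕜 X]
  {H : Type} [NormedAddCommGroup H] [InnerProductSpace 𝕜 H] [CompleteSpace H]

/-- the splitting lemma in a Banach space isomorphic to a Hilbert space -/
theorem splitting' (Φ : X ≃L[𝕜] H) {C : ℝ} (hC : 0 ≤ C) :
    ∃ κ : ℝ, 1 ≤ κ ∧ ∀ (A B : X →L[𝕜] X) (ε : ℝ), 0 < ε →
      (∀ x : X, ∃ u v : X, u + v = x ∧ ‖u‖ ≤ C * ‖x‖ ∧ ‖v‖ ≤ C * ‖x‖ ∧ ‖A u‖ ≤ ε * ‖x‖ ∧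
        ‖B v‖ ≤ ε * ‖x‖) →
      ∃ π : X →L[𝕜] X, π * π = π ∧ ‖π‖ ≤ κ ∧ ‖1 - π‖ ≤ κ ∧ ‖A * π‖ ≤ κ * ε ∧
        ‖B * (1 - π)‖ ≤ κ * ε := by
  set α : ℝ := ‖(Φ : X →L[𝕜] H)‖ with hα
  set β : ℝ := ‖(Φ.symm : H →L[𝕜] X)‖ with hβ
  have hα0 : 0 ≤ α := norm_nonneg _
  have hβ0 : 0 ≤ β := norm_nonneg _
  have hΦ : ∀ x, ‖Φ x‖ ≤ α * ‖x‖ := fun x => (Φ : X →L[𝕜] H).le_opNorm x
  have hΨ : ∀ x, ‖Φ.symm x‖ ≤ β * ‖x‖ := fun x => (Φ.symm : H →L[𝕜] X).le_opNorm x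
  set γ : ℝ := α * β + 1 with hγ
  have hγ1 : 1 ≤ γ := by rw [hγ]; nlinarith [mul_nonneg hα0 hβ0]
  have hαβ : α * β ≤ γ := by rw [hγ]; linarith
  have hαβ0 : 0 ≤ α * β := mul_nonneg hα0 hβ0
  set D : ℝ := γ * C with hD
  have hD0 : 0 ≤ D := by positivity
  refine ⟨γ * γ * (4 * (D + 1)), ?_, fun A B ε hε h => ?_⟩
  · nlinarith [mul_nonneg (by linarith : (0:ℝ) ≤ γ - 1) (by linarith : (0:ℝ) ≤ γ), hD0]
  set A' : H →L[𝕜] H := (Φ : X →L[𝕜] H).comp (A.comp (Φ.symm : H →L[𝕜] X)) with hA'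
  set B' : H →L[𝕜] H := (Φ : X →L[𝕜] H).comp (B.comp (Φ.symm : H →L[𝕜] X)) with hB'
  have hA'a : ∀ x, A' x = Φ (A (Φ.symm x)) := fun x => rfl
  have hB'a : ∀ x, B' x = Φ (B (Φ.symm x)) := fun x => rfl
  have hest : ∀ (c : ℝ), 0 ≤ c → ∀ (x : H) (z : X), ‖z‖ ≤ c * ‖Φ.symm x‖ → ‖Φ z‖ ≤ γ * c * ‖x‖ := by
    intro c hc x z hz
    calc ‖Φ z‖ ≤ α * ‖z‖ := hΦ z
      _ ≤ α * (c * (β * ‖x‖)) := by
        refine mul_le_mul_of_nonneg_left (hz.trans ?_) hα0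
        exact mul_le_mul_of_nonneg_left (hΨ x) hc
      _ = (α * β) * c * ‖x‖ := by ring
      _ ≤ γ * c * ‖x‖ := by gcongr
  obtain ⟨π, h1, h2, h3, h4, h5⟩ := splitting (C := D) hD0 A' B' (ε := γ * ε) (by positivity)
    (fun x => by
      obtain ⟨u, v, huv, hu, hv, hAu, hBv⟩ := h (Φ.symm x)
      refine ⟨Φ u, Φ v, ?_, ?_, ?_, ?_, ?_⟩
      · rw [← map_add, huv, Φ.apply_symm_apply]
      · exact hest C hC x u hu
      · exact hest C hC x v hv
      · rw [hA'a, Φ.symm_apply_apply]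
        exact hest ε hε.le x _ hAu
      · rw [hB'a, Φ.symm_apply_apply]
        exact hest ε hε.le x _ hBv)
  set ρ : X →L[𝕜] X := (Φ.symm : H →L[𝕜] X).comp (π.comp (Φ : X →L[𝕜] H)) with hρ
  have hρa : ∀ x, ρ x = Φ.symm (π (Φ x)) := fun x => rfl
  have hππ : ∀ x, π (π x) = π x := fun x => congrArg (fun f : H →L[𝕜] H => f x) h1
  have hbd : ∀ (f : H →L[𝕜] H) (c : ℝ), 0 ≤ c → ‖f‖ ≤ c → ∀ (x : X), ‖Φ.symm (f (Φ x))‖ ≤ γ * c * ‖x‖ := by
    intro f c hc hf x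
    calc ‖Φ.symm (f (Φ x))‖ ≤ β * ‖f (Φ x)‖ := hΨ _
      _ ≤ β * (c * (α * ‖x‖)) := by
        refine mul_le_mul_of_nonneg_left ?_ hβ0
        exact (f.le_opNorm _).trans (mul_le_mul hf (hΦ x) (norm_nonneg _) hc)
      _ = (α * β) * c * ‖x‖ := by ring
      _ ≤ γ * c * ‖x‖ := by gcongr
  have hγγ : γ ≤ γ * γ := by nlinarith
  refine ⟨ρ, ?_, ?_, ?_, ?_, ?_⟩
  · ext x
    show ρ (ρ x) = ρ x
    rw [hρa, hρa, Φ.apply_symm_apply, hππ]
  · refine ContinuousLinearMap.opNorm_le_bound _ (by positivity) (fun x => ?_)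
    refine (hbd π _ (by positivity) h2 x).trans ?_
    gcongr
  · refine ContinuousLinearMap.opNorm_le_bound _ (by positivity) (fun x => ?_)
    have e1 : (1 - ρ) x = Φ.symm ((1 - π) (Φ x)) := by
      show x - ρ x = Φ.symm (Φ x - π (Φ x))
      rw [map_sub, Φ.symm_apply_apply]
      rfl
    rw [e1]
    refine (hbd (1 - π) _ (by positivity) h3 x).trans ?_
    gcongr
  · refine ContinuousLinearMap.opNorm_le_bound _ (by positivity) (fun x => ?_)
    have e1 : (A * ρ) x = Φ.symm ((A' * π) (Φ x)) := by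
      show A (ρ x) = Φ.symm (A' (π (Φ x)))
      rw [hA'a, Φ.symm_apply_apply]
      rfl
    rw [e1]
    refine (hbd (A' * π) _ (by positivity) h4 x).trans ?_
    have : γ * (2 * (D + 1) * (γ * ε)) * ‖x‖ ≤ γ * γ * (4 * (D + 1)) * ε * ‖x‖ := by
      have h6 : 0 ≤ γ * γ * (D + 1) * ε * ‖x‖ := by positivity
      nlinarith
    exact this
  · refine ContinuousLinearMap.opNorm_le_bound _ (by positivity) (fun x => ?_)
    have e1 : (B * (1 - ρ)) x = Φ.symm ((B' * (1 - π)) (Φ x)) := by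
      show B (x - ρ x) = Φ.symm (B' (Φ x - π (Φ x)))
      rw [hB'a, Φ.symm_apply_apply]
      congr 1
      rw [map_sub Φ.symm, Φ.symm_apply_apply]
      rfl
    rw [e1]
    refine (hbd (B' * (1 - π)) _ (by positivity) h5 x).trans ?_
    have : γ * (2 * (D + 1) * (γ * ε)) * ‖x‖ ≤ γ * γ * (4 * (D + 1)) * ε * ‖x‖ := by
      have h6 : 0 ≤ γ * γ * (D + 1) * ε * ‖x‖ := by positivity
      nlinarith
    exact this

lemma exists_N (C κ : ℝ) (hκ : 1 ≤ κ) (hC : 0 ≤ C) :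
    ∃ N : ℕ, 1 ≤ N ∧ 16 * κ * (κ * ((C + 1) / N)) ≤ 1 := by
  refine ⟨⌈16 * κ * (κ * (C + 1))⌉₊ + 1, by omega, ?_⟩
  have h1 : 16 * κ * (κ * (C + 1)) ≤ (⌈16 * κ * (κ * (C + 1))⌉₊ : ℝ) := Nat.le_ceil _
  have h2 : (0 : ℝ) < ((⌈16 * κ * (κ * (C + 1))⌉₊ + 1 : ℕ) : ℝ) := by positivity
  have h3 : 16 * κ * (κ * ((C + 1) / ((⌈16 * κ * (κ * (C + 1))⌉₊ + 1 : ℕ) : ℝ))) =
      16 * κ * (κ * (C + 1)) / ((⌈16 * κ * (κ * (C + 1))⌉₊ + 1 : ℕ) : ℝ) := by ring
  rw [h3, div_le_one h2]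
  push_cast
  linarith

/-- **Shift operators with Hilbertian fibres.** -/
theorem genHyp_of_shadowing [CompleteSpace X] (Φ : X ≃L[𝕜] H) {p : ℝ≥0∞} [hp : Fact (1 ≤ p)]
    {S : ℤ → X ≃L[𝕜] X} {c : ℝ} (hS1 : ∀ n x, ‖S n x‖ ≤ c * ‖x‖)
    (hS2 : ∀ n x, ‖(S n).symm x‖ ≤ c * ‖x‖)
    {σ : lp (fun _ : ℤ => X) p ≃L[𝕜] lp (fun _ : ℤ => X) p}
    (hσ : ∀ (x : lp (fun _ : ℤ => X) p) (k : ℤ), σ x k = S (k + 1) (x (k + 1)))
    (h : ShadowingAux σ) : GenHypAux σ := by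
  obtain ⟨C, hC, hdec⟩ := fibreDecomp hσ h
  obtain ⟨κ, hκ, hsp⟩ := splitting' Φ hC
  obtain ⟨N, hN, hNκ⟩ := exists_N C κ hκ hC
  have hN0 : (0 : ℝ) < N := by exact_mod_cast hN
  set ε : ℝ := (C + 1) / N with hε
  have hε0 : 0 < ε := by positivity
  have hCε : C / N ≤ ε := by rw [hε]; gcongr; linarith
  have hπ : ∀ k : ℤ, ∃ π : X →L[𝕜] X, π * π = π ∧ ‖π‖ ≤ κ ∧ ‖1 - π‖ ≤ κ ∧
      ‖(Ph S k (N + 1) : X →L[𝕜] X) * π‖ ≤ κ * ε ∧
      ‖((Ph S (k + ((N + 1 : ℕ) : ℤ)) (N + 1)).symm : X →L[𝕜] X) * (1 - π)‖ ≤ κ * ε := by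
    intro k
    refine hsp _ _ ε hε0 (fun x => ?_)
    obtain ⟨u, v, h1, h2, h3, h4, h5⟩ := hdec N hN k x
    refine ⟨u, v, h1, h2, h3, h4.trans ?_, h5.trans ?_⟩
    · gcongr
    · gcongr
  choose π hπ1 hπ2 hπ3 hπ4 hπ5 using hπ
  have hn : ∀ m : ℤ, ((N + 1 : ℕ) : ℤ) * (m - 1) + ((N + 1 : ℕ) : ℤ) = ((N + 1 : ℕ) : ℤ) * m := by
    intro m; ring
  obtain ⟨Q, hQ1, hQ2, hQ3, hQ4, hQ5, hQ6⟩ := invProj (R := X →L[𝕜] X) (ι := ℤ)
    (A := fun m => (Ph S (((N + 1 : ℕ) : ℤ) * m) (N + 1) : X →L[𝕜] X))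
    (Ai := fun m => ((Ph S (((N + 1 : ℕ) : ℤ) * m) (N + 1)).symm : X →L[𝕜] X))
    (π := fun m => π (((N + 1 : ℕ) : ℤ) * m)) (κ := κ) (s := κ * ε)
    ContinuousLinearMap.norm_id_le (Equiv.subRight 1) hκ (by positivity) hNκ
    (fun m => by ext x; simp)
    (fun m => by ext x; simp)
    (fun m => hπ1 _) (fun m => hπ2 _) (fun m => hπ3 _) (fun m => hπ4 _)
    (fun m => by
      have := hπ5 (((N + 1 : ℕ) : ℤ) * (m - 1))
      rw [hn] at this
      exact this)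
  have hap : ∀ {f g : X →L[𝕜] X} (_ : f = g) (x : X), f x = g x := by
    intro f g hfg x
    rw [hfg]
  refine assemble hσ (C := max c 1) (le_max_right _ _)
    (fun n x => (hS1 n x).trans (by gcongr; exact le_max_left _ _))
    (fun n x => (hS2 n x).trans (by gcongr; exact le_max_left _ _)) N Q (κ := 4 * κ)
    (fun m x => hap (hQ1 m) x) (fun m x => ?_) (fun m x => ?_) (fun m x => ?_) (fun m x => ?_)
    (fun m x => ?_)
  · refine ((Q m).le_opNorm x).trans ?_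
    gcongr
    exact hQ2 m
  · have h1 := hQ3 (m + 1)
    simp only [Equiv.subRight_apply, add_sub_cancel_right] at h1
    exact hap h1 x
  · have h1 := hQ4 (m + 1)
    simp only [Equiv.subRight_apply, add_sub_cancel_right] at h1
    have h2 := hap h1 x
    have h3 : (Ph S (((N + 1 : ℕ) : ℤ) * (m + 1)) (N + 1)).symm (x - Q m x) -
        Q (m + 1) ((Ph S (((N + 1 : ℕ) : ℤ) * (m + 1)) (N + 1)).symm (x - Q m x)) =
        (Ph S (((N + 1 : ℕ) : ℤ) * (m + 1)) (N + 1)).symm (x - Q m x) := h2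
    exact sub_eq_self.1 h3
  · have h1 := hQ5 (m + 1)
    have h2 := ((Ph S (((N + 1 : ℕ) : ℤ) * (m + 1)) (N + 1) : X →L[𝕜] X) * Q (m + 1)).le_opNorm x
    exact h2.trans (by gcongr)
  · have h1 := hQ6 (m + 1)
    simp only [Equiv.subRight_apply, add_sub_cancel_right] at h1
    have h2 := (((Ph S (((N + 1 : ℕ) : ℤ) * (m + 1)) (N + 1)).symm : X →L[𝕜] X) *
      (1 - Q m)).le_opNorm x
    exact h2.trans (by gcongr)

/-- **Operators of Hilbertian spaces.** -/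
theorem pow_genHyp_of_shadowing [CompleteSpace X] (Φ : X ≃L[𝕜] H) {T : X ≃L[𝕜] X}
    (h : ShadowingAux T) : ∃ n : ℕ, 1 ≤ n ∧ GenHypAux (T ^ n) := by
  obtain ⟨C, hC, hloc⟩ := localized h
  obtain ⟨κ, hκ, hsp⟩ := splitting' Φ (C := C + 1) (by linarith)
  obtain ⟨N, hN, hNκ⟩ := exists_N C κ hκ hC
  have hN0 : (0 : ℝ) < N := by exact_mod_cast hN
  set ε : ℝ := (C + 1) / N with hε
  have hε0 : 0 < ε := by positivity
  have hCε : C / N ≤ ε := by rw [hε]; gcongr; linarith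
  have hpow : ∀ (U : X ≃L[𝕜] X) (n : ℕ) (x : X), (U ^ n) x = U^[n] x := by
    intro U n x
    have := pow_iter U n 1 x
    rw [Nat.mul_one] at this
    exact this
  have hpows : ∀ (U : X ≃L[𝕜] X) (n : ℕ) (x : X), (U ^ n).symm x = U.symm^[n] x := by
    intro U n x
    have := pow_symm_iter U n 1 x
    rw [Nat.mul_one] at this
    exact this
  obtain ⟨π, hπ1, hπ2, hπ3, hπ4, hπ5⟩ := hsp ((T ^ (N + 1) : X ≃L[𝕜] X) : X →L[𝕜] X)
    ((T ^ (N + 1) : X ≃L[𝕜] X).symm : X →L[𝕜] X) ε hε0 (fun x => by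
      obtain ⟨y, hy, hy1, hy2⟩ := hloc N hN x
      have hf : ∀ j : ℕ, y (1 + j) = T^[j] (y 1) := by
        intro j
        induction j with
        | zero => simp
        | succ j ih =>
          have h1 := hy (1 + j)
          rw [if_neg (by omega), sub_eq_zero] at h1
          rw [Function.iterate_succ_apply', ← ih, ← h1]
          congr 1
      have hb : ∀ j : ℕ, T (y 0) = T^[j + 1] (y (-j)) := by
        intro j
        induction j with
        | zero => simp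
        | succ j ih =>
          rw [ih]
          have h1 := hy (-((j + 1 : ℕ) : ℤ))
          rw [if_neg (by omega), sub_eq_zero] at h1
          have h2 : -((j + 1 : ℕ) : ℤ) + 1 = -(j : ℤ) := by push_cast; ring
          rw [h2] at h1
          rw [h1, ← Function.iterate_succ_apply]
      have h0 := hy 0
      rw [if_pos rfl, zero_add] at h0
      refine ⟨y 1, x - y 1, by abel, ?_, ?_, ?_, ?_⟩
      · have := hy1 1
        nlinarith [norm_nonneg x]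
      · have h1 := hy1 1
        have h2 := norm_sub_le x (y 1)
        nlinarith [norm_nonneg x]
      · show ‖(T ^ (N + 1)) (y 1)‖ ≤ _
        rw [hpow, ← hf (N + 1)]
        refine (hy2 _ (by
          rw [abs_of_nonneg (by positivity)]
          push_cast
          linarith)).trans ?_
        gcongr
      · show ‖(T ^ (N + 1)).symm (x - y 1)‖ ≤ _
        have h1 : x - y 1 = -(T (y 0)) := by
          rw [← h0]; abel
        rw [h1, hb N, ← hpow, map_neg, ContinuousLinearEquiv.symm_apply_apply, norm_neg]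
        refine (hy2 _ (by rw [abs_neg, abs_of_nonneg (by positivity)])).trans ?_
        gcongr)
  set U : X ≃L[𝕜] X := T ^ (N + 1) with hU
  obtain ⟨Q, hQ1, hQ2, hQ3, hQ4, hQ5, hQ6⟩ := invProj (R := X →L[𝕜] X) (ι := Unit)
    (A := fun _ => (U : X →L[𝕜] X)) (Ai := fun _ => (U.symm : X →L[𝕜] X))
    (π := fun _ => π) (κ := κ) (s := κ * ε)
    ContinuousLinearMap.norm_id_le (Equiv.refl Unit) hκ (by positivity) hNκ
    (fun m => by ext x; simp)
    (fun m => by ext x; simp)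
    (fun m => hπ1) (fun m => hπ2) (fun m => hπ3) (fun m => hπ4) (fun m => hπ5)
  set P : X →L[𝕜] X := Q () with hP
  have hap : ∀ {f g : X →L[𝕜] X} (_ : f = g) (x : X), f x = g x := by
    intro f g hfg x
    rw [hfg]
  have hPP : ∀ x, P (P x) = P x := fun x => hap (hQ1 ()) x
  have hPU : ∀ x, P (U (P x)) = U (P x) := fun x => hap (hQ3 ()) x
  have hPU' : ∀ x, P (U.symm (x - P x)) = 0 := by
    intro x
    have h2 := hap (hQ4 ()) x
    have h3 : U.symm (x - P x) - P (U.symm (x - P x)) = U.symm (x - P x) := h2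
    exact sub_eq_self.1 h3
  have hn5 : ∀ x, ‖U (P x)‖ ≤ 1 / 2 * ‖x‖ := fun x =>
    (((U : X →L[𝕜] X) * P).le_opNorm x).trans (mul_le_mul_of_nonneg_right (hQ5 ()) (norm_nonneg _))
  have hn6 : ∀ x, ‖U.symm (x - P x)‖ ≤ 1 / 2 * ‖x‖ := fun x =>
    (((U.symm : X →L[𝕜] X) * (1 - P)).le_opNorm x).trans
      (mul_le_mul_of_nonneg_right (hQ6 ()) (norm_nonneg _))
  refine ⟨N + 1, by omega, LinearMap.ker (ContinuousLinearMap.id 𝕜 X - P).toLinearMap,
    LinearMap.ker P.toLinearMap, ?_, ?_, ⟨?_, ?_⟩, ?_, ?_, ⟨1, le_rfl, 1 / 2, by norm_num, ?_⟩,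
    ⟨1, le_rfl, 1 / 2, by norm_num, ?_⟩⟩
  · exact (ContinuousLinearMap.id 𝕜 X - P).isClosed_ker
  · exact P.isClosed_ker
  · rw [Submodule.disjoint_def]
    intro x hx hx2
    have e1 : x - P x = 0 := hx
    have e2 : P x = 0 := hx2
    rw [e2, sub_zero] at e1
    exact e1
  · rw [codisjoint_iff, eq_top_iff]
    intro x _
    refine Submodule.mem_sup.2 ⟨P x, ?_, x - P x, ?_, by abel⟩
    · show P x - P (P x) = 0
      rw [hPP, sub_self]
    · show P (x - P x) = 0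
      rw [map_sub, hPP, sub_self]
  · intro x hx
    have e1 : x - P x = 0 := hx
    have e2 : x = P x := sub_eq_zero.1 e1
    show U x - P (U x) = 0
    rw [e2, hPU, sub_self]
  · intro x hx
    have e2 : P x = 0 := hx
    have h1 := hPU' x
    rw [e2, sub_zero] at h1
    exact h1
  · intro x hx
    have e1 : x - P x = 0 := hx
    have e2 : P x = x := (sub_eq_zero.1 e1).symm
    have := hn5 x
    rw [e2] at this
    exact this
  · intro x hx
    have e2 : P x = 0 := hx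
    have := hn6 x
    rw [e2, sub_zero] at this
    exact this

end Mn

end Pool.Agent.KS6_15.HS
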